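import Pool.Agent.AHH.Defs

/-!
# AHH, row REG: statement
-/

set_option autoImplicit false

open scoped BigOperators NNReal Matrix

noncomputable section

namespace Pool.Agent.AHH

open Pool.Agent.BED (Tor)
open Pool.Agent.AND2B (net kap)
open Pool.Agent.ANP (Cfg)

variable {d M : ℕ} [NeZero M]

/-- the weights for the regauging: literally the hypotheses of `AGU.GfiStmt` -/
def Wts (V : Env d M) (T : Cfg (Tor d M)) (run : Finset (Tor d M)) (s c N : ℝ) : Prop :=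
  ∃ (e : Tor d M → Tor d M → ℝ) (B : Tor d M → Finset (Tor d M)), (∀ a b, 0 < e a b) ∧
    (∀ a, e a a = 1) ∧
    (∀ o ∈ run, ∀ a ∈ run, ∑ b ∈ run, s * ‖net V.E V.e₀ T a b‖ ^ 2 *
      (|1 - e o a / e o b| ⊔ |1 - e o b / e o a|) * gg T b ≤ c * gg T a) ∧
    (∀ o, ((B o).card : ℝ) ≤ N) ∧ ∀ o, ∑ b ∈ run \ B o, e o b ^ 2 ≤ 1

/-- the numbers of REG: `q` before, `q'` after, `x = Cr (1 + log N) q.mis` -/
structure RegH (V : Env d M) (q q' : Num) (s x : ℝ) : Prop where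
  s0 : 0 < s
  e0 : 0 < V.e₀
  D0 : 0 < V.D₀ ∧ V.D₀ ≤ V.D₁
  u0 : 0 ≤ V.u₀
  mis0 : 0 ≤ q.mis ∧ q.mis ≤ V.c₀ / 4
  del0 : q.del ≤ 1
  lam0 : 0 ≤ q.lam
  th0 : 0 ≤ q.tht ∧ q.tht ≤ 1 / 2
  ep0 : 0 ≤ q.eps ∧ q.eps ≤ 1
  rh0 : 0 ≤ q.rho ∧ q.rho ≤ 1
  x1 : x ≤ 1
  gc : V.c₀ + q'.del ≤ V.m₀.im
  gC : ‖V.m₀‖ + q'.del ≤ V.C₀
  del : q.del + x ≤ q'.del
  mis : x ^ 2 ≤ q'.mis
  lam : (q.lam ^ (1 / 4 : ℝ) + x * s ^ (-(1 / 4) : ℝ)) ^ 4 ≤ q'.lam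
  tht : q.tht + x ≤ q'.tht
  eps : q.eps + x ≤ q'.eps
  rho : q.rho + x ≤ q'.rho
  u1 : V.u₀ + q'.rho < 1

/-- REG: a good configuration is good after the change of the gauge, with a quadratic mismatch -/
def RegStmt : Prop :=
  ∀ c₀ C₀ : ℝ, 0 < c₀ → c₀ ≤ 1 → 1 ≤ C₀ → ∃ Cr : ℝ, 1 ≤ Cr ∧
    ∀ (d M : ℕ) [NeZero M] (V : Env d M) (q q' : Num) (s N : ℝ) (T : Cfg (Tor d M))
      (run : Finset (Tor d M)), V.c₀ = c₀ → V.C₀ = C₀ → 1 ≤ N →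
      RegH V q q' s (Cr * (1 + Real.log N) * q.mis) → StN V q s T run →
      (∀ x ∈ run, (T.s x : ℝ) = s) → (∀ x ∈ Al T, (V.G₀ x x).im ≤ C₀) →
      Wts V T run s (1 / 16) N → ∃ m, StN V q' s (T.rg m) run

end Pool.Agent.AHH
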