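import Pool.Agent.AND2B.Base
import Pool.Agent.Helper14_HSL.HSC
import Pool.Agent.AGU.Defs
import Pool.Agent.Helper54_BED.LA

/-!
# AHH, row REG: the change of the resolvent of a configuration by a change of the gauge
-/

set_option autoImplicit false

open scoped BigOperators NNReal Matrix ComplexConjugate

noncomputable section

namespace Pool.Agent.AHH.H72

open Pool.Agent.ANR (Gr Net)
open Pool.Agent.AGU (WK Chg)
open Pool.Agent.BED (Tor)
open Pool.Agent.AND2B (net kap Vef Hr res)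
open Pool.Agent.ANP (Cfg)

section gen

variable {X : Type} [Fintype X] [DecidableEq X]

theorem wk_of_net {H : Matrix X X ℝ} {k : X → ℝ} (hN : Net H k) : WK (Gr H k) k := by
  refine ⟨hN.pos, fun a b => Pool.Agent.HSL14.gr_sym hN.sym k a b, fun a b => ?_⟩
  have h := Pool.Agent.HSL14.ward hN.sym (Pool.Agent.HSL14.mat_unit hN) b a
  rw [Pool.Agent.HSL14.gr_sym hN.sym k b a] at h
  rw [← h]
  refine Finset.sum_congr rfl fun c _ => ?_
  rw [Pool.Agent.HSL14.gr_sym hN.sym k c b]
  ring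

/-- the resolvent identity -/
theorem gr_change {H H' : Matrix X X ℝ} {k k' : X → ℝ} {z : X → ℂ} (hN : Net H k)
    (hN' : Net H' k') (hH : ∀ x y, H' x y = H x y - if x = y then (z x).re else 0)
    (hk : ∀ x, k' x = k x + (z x).im) (a b : X) :
    Gr H' k' a b = Gr H k a b + ∑ c, Gr H k a c * z c * Gr H' k' c b := by
  have hU := Pool.Agent.HSL14.mat_unit hN
  have hU' := Pool.Agent.HSL14.mat_unit hN'
  have hM : Pool.Agent.HSL14.mat H' k' = Pool.Agent.HSL14.mat H k - Matrix.diagonal z := by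
    ext x y
    unfold Pool.Agent.HSL14.mat
    rw [Matrix.sub_apply, Matrix.sub_apply, Matrix.sub_apply, Matrix.map_apply, Matrix.map_apply,
      hH x y]
    by_cases h : x = y
    · subst h
      rw [if_pos rfl, Matrix.diagonal_apply_eq, Matrix.diagonal_apply_eq,
        Matrix.diagonal_apply_eq, hk x]
      apply Complex.ext <;> simp <;> ring
    · rw [if_neg h, Matrix.diagonal_apply_ne _ h, Matrix.diagonal_apply_ne _ h,
        Matrix.diagonal_apply_ne _ h]
      simp
  have h1 : Gr H' k' = Gr H k + Gr H k * Matrix.diagonal z * Gr H' k' := by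
    have e1 : Gr H k * Pool.Agent.HSL14.mat H k = 1 := Matrix.nonsing_inv_mul _ hU
    have e2 : Pool.Agent.HSL14.mat H' k' * Gr H' k' = 1 := Matrix.mul_nonsing_inv _ hU'
    have e3 : Matrix.diagonal z = Pool.Agent.HSL14.mat H k - Pool.Agent.HSL14.mat H' k' := by
      rw [hM]
      abel
    rw [e3, mul_sub, sub_mul, mul_assoc, mul_assoc, e2, ← mul_assoc, e1, one_mul, mul_one]
    abel
  have h2 := congrFun (congrFun h1 a) b
  rw [Matrix.add_apply, Matrix.mul_apply] at h2
  rw [h2]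
  congr 1
  refine Finset.sum_congr rfl fun c _ => ?_
  rw [Matrix.mul_diagonal]

theorem chg_of {H H' : Matrix X X ℝ} {k k' : X → ℝ} {z : X → ℂ} {d : ℝ} (hN : Net H k)
    (hd : 0 ≤ d ∧ d ≤ 1 / 4) (hz : ∀ a, ‖z a‖ ≤ d * k a)
    (hH : ∀ x y, H' x y = H x y - if x = y then (z x).re else 0)
    (hk : ∀ x, k' x = k x + (z x).im) : Chg (Gr H k) (Gr H' k') k k' z d := by
  have hN' : Net H' k' := by
    refine ⟨fun x y => ?_, fun x => ?_⟩
    · rw [hH, hH, hN.sym x y]
      by_cases h : x = y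
      · subst h
        rfl
      · rw [if_neg h, if_neg (Ne.symm h)]
    · rw [hk x]
      have h1 := hz x
      have h2 := Complex.abs_im_le_norm (z x)
      have h3 := hN.pos x
      have h4 := neg_abs_le (z x).im
      nlinarith [hd.1, hd.2]
  exact ⟨wk_of_net hN, wk_of_net hN', hd, hz, hk, fun a b => gr_change hN hN' hH hk a b⟩

end gen

section tor

variable {d M : ℕ} [NeZero M]

theorem hr_sym (V : Tor d M → ℝ) (E : ℝ) (x y : Tor d M) : Hr V E x y = Hr V E y x := by
  unfold Hr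
  rw [Matrix.add_apply, Matrix.add_apply, Pool.Agent.BED.adj_symm x y]
  by_cases h : x = y
  · subst h
    rfl
  · rw [Matrix.diagonal_apply_ne _ h, Matrix.diagonal_apply_ne _ (Ne.symm h)]

/-- the network of a configuration with positive absorption -/
theorem net_net {E e₀ : ℝ} {T : Cfg (Tor d M)} (h : ∀ x, 0 < kap e₀ T x) :
    Net (Hr (Vef T) E) (kap e₀ T) := ⟨hr_sym _ _, h⟩

theorem wk_net {E e₀ : ℝ} {T : Cfg (Tor d M)} (h : ∀ x, 0 < kap e₀ T x) :
    WK (net E e₀ T) (kap e₀ T) := wk_of_net (net_net h)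

/-- THE CHANGE OF THE GAUGE -/
theorem chg_net {E e₀ : ℝ} {T : Cfg (Tor d M)} (h : ∀ x, 0 < kap e₀ T x) {δ z : Tor d M → ℂ}
    {D : ℝ} (hD : 0 ≤ D ∧ D ≤ 1 / 4) (hz : ∀ x, z x = (T.s x : ℝ) * δ x)
    (hzD : ∀ x, ‖z x‖ ≤ D * kap e₀ T x) :
    Chg (net E e₀ T) (net E e₀ (T.rg fun x => T.mb x + δ x)) (kap e₀ T)
      (kap e₀ (T.rg fun x => T.mb x + δ x)) z D := by
  refine chg_of (net_net h) hD hzD (fun x y => ?_) fun x => ?_
  · unfold Hr
    rw [Matrix.add_apply, Matrix.add_apply]
    by_cases hxy : x = y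
    · subst hxy
      rw [Matrix.diagonal_apply_eq, Matrix.diagonal_apply_eq, if_pos rfl, hz x]
      unfold Vef Cfg.rg
      simp only [Complex.add_re, Complex.mul_re, Complex.ofReal_re, Complex.ofReal_im]
      ring
    · rw [Matrix.diagonal_apply_ne _ hxy, Matrix.diagonal_apply_ne _ hxy, if_neg hxy]
      ring
  · rw [hz x]
    unfold kap Cfg.rg
    simp only [Complex.add_im, Complex.mul_im, Complex.ofReal_re, Complex.ofReal_im]
    ring

end tor

end Pool.Agent.AHH.H72
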