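import Pool.Agent.Helper89_FAR.WgtS
import Pool.Agent.AHH.StmtsR
import Pool.Agent.Helper72_AHH.Chg

/-!
# AHH: the weights for the regauging, `WtsStmt`

helper89's `wts_s` without the form bound of `AGU.Run` (which is not used there).
-/

set_option autoImplicit false

open scoped BigOperators Matrix NNReal

noncomputable section

namespace Pool.Agent.AHH.H72

open Pool.Agent.ANR
open Pool.Agent.ANR.H89 (GeoF SumE geoF_T sumE_T cI cI_pos Nb alive_dist wwd_ad)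
open Pool.Agent.BED (Tor adj ev)
open Pool.Agent.ANP (Cfg Geo Fc)
open Pool.Agent.AND2B (Hr Vef kap net res Gt)
open Pool.Agent.AGU (WK)

/-- `AGU.Run` without the form bound -/
structure RunW {X : Type} [Fintype X] [DecidableEq X] (G : Matrix X X ℂ) (k : X → ℝ)
    (R : Finset X) (m : X → ℂ) (s ε c₀ : ℝ) : Prop where
  hw : WK G k
  hs : 0 < s
  hc : 0 < c₀ ∧ c₀ ≤ 1
  hε : 0 ≤ ε ∧ ε ≤ c₀ / 4
  hm : ∀ a ∈ R, c₀ ≤ (m a).im
  hk : ∀ a ∈ R, s * (m a).im ≤ k a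
  hμ : ∀ a ∈ R, ‖G a a - m a‖ ≤ ε

/-- GCW without the form bound -/
theorem gcwW {X : Type} [Fintype X] [DecidableEq X] {G : Matrix X X ℂ} {k : X → ℝ} {R : Finset X}
    {m : X → ℂ} {s ε c₀ β β₁ C₁ : ℝ} {D : X → X → ℝ} (hrun : RunW G k R m s ε c₀)
    (hD : ∀ a b, 0 ≤ D a b ∧ D a b = D b a) (htri : ∀ a b e, D a b ≤ D a e + D e b)
    (hβ : 0 ≤ β) (hβ1 : β ≤ β₁) (hβ2 : 0 < β₁)
    (hsum : ∀ a ∈ R, ∑ b, k b * ‖G a b‖ ^ 2 * Real.exp (β₁ * D a b) ≤ C₁ * (m a).im) {o : X}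
    {a : X} (ha : a ∈ R) :
    ∑ b ∈ R, s * ‖G a b‖ ^ 2 *
        (|1 - Real.exp (-(β * D o a)) / Real.exp (-(β * D o b))| ⊔
          |1 - Real.exp (-(β * D o b)) / Real.exp (-(β * D o a))|) * (m b).im ≤
        β / β₁ * C₁ * (m a).im := by
  have key : ∀ b ∈ R, s * ‖G a b‖ ^ 2 *
        (|1 - Real.exp (-(β * D o a)) / Real.exp (-(β * D o b))| ⊔
          |1 - Real.exp (-(β * D o b)) / Real.exp (-(β * D o a))|) * (m b).im ≤
      β / β₁ * (k b * ‖G a b‖ ^ 2 * Real.exp (β₁ * D a b)) := by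
    intro b hb
    have hab : |D o b - D o a| ≤ D a b := by
      rw [abs_le]
      constructor
      · have h := htri o a b
        rw [(hD b a).2] at h
        linarith
      · have h := htri o b a
        linarith
    have h1 : |1 - Real.exp (-(β * D o a)) / Real.exp (-(β * D o b))| ≤
        Real.exp (β * D a b) - 1 := by
      rw [← Real.exp_sub]
      apply AGU.H51.abs_one_sub_exp_le
      have h2 : -(β * D o a) - -(β * D o b) = β * (D o b - D o a) := by ring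
      rw [h2, abs_mul, abs_of_nonneg hβ]
      exact mul_le_mul_of_nonneg_left hab hβ
    have h2 : |1 - Real.exp (-(β * D o b)) / Real.exp (-(β * D o a))| ≤
        Real.exp (β * D a b) - 1 := by
      rw [← Real.exp_sub]
      apply AGU.H51.abs_one_sub_exp_le
      have h2 : -(β * D o b) - -(β * D o a) = -(β * (D o b - D o a)) := by ring
      rw [h2, abs_neg, abs_mul, abs_of_nonneg hβ]
      exact mul_le_mul_of_nonneg_left hab hβ
    have h3 := (sup_le h1 h2).trans (AGU.H51.exp_conv β β₁ (D a b) hβ hβ1 hβ2)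
    have hk := hrun.hk b hb
    have hm : 0 ≤ (m b).im := le_trans hrun.hc.1.le (hrun.hm b hb)
    have hG : 0 ≤ ‖G a b‖ ^ 2 := by positivity
    have hE : 0 ≤ β / β₁ * Real.exp (β₁ * D a b) :=
      mul_nonneg (div_nonneg hβ hβ2.le) (Real.exp_pos _).le
    calc s * ‖G a b‖ ^ 2 *
        (|1 - Real.exp (-(β * D o a)) / Real.exp (-(β * D o b))| ⊔
          |1 - Real.exp (-(β * D o b)) / Real.exp (-(β * D o a))|) * (m b).im
        ≤ s * ‖G a b‖ ^ 2 * (β / β₁ * Real.exp (β₁ * D a b)) * (m b).im := by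
          apply mul_le_mul_of_nonneg_right _ hm
          exact mul_le_mul_of_nonneg_left h3 (mul_nonneg hrun.hs.le hG)
      _ = (s * (m b).im) * (‖G a b‖ ^ 2 * (β / β₁ * Real.exp (β₁ * D a b))) := by ring
      _ ≤ k b * (‖G a b‖ ^ 2 * (β / β₁ * Real.exp (β₁ * D a b))) :=
          mul_le_mul_of_nonneg_right hk (mul_nonneg hG hE)
      _ = β / β₁ * (k b * ‖G a b‖ ^ 2 * Real.exp (β₁ * D a b)) := by ring
  have hnn : ∀ b, 0 ≤ k b * ‖G a b‖ ^ 2 * Real.exp (β₁ * D a b) := fun b =>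
    mul_nonneg (mul_nonneg (hrun.hw.hk b).le (by positivity)) (Real.exp_pos _).le
  calc _ ≤ ∑ b ∈ R, β / β₁ * (k b * ‖G a b‖ ^ 2 * Real.exp (β₁ * D a b)) :=
        Finset.sum_le_sum key
    _ = β / β₁ * ∑ b ∈ R, k b * ‖G a b‖ ^ 2 * Real.exp (β₁ * D a b) := by
        rw [Finset.mul_sum]
    _ ≤ β / β₁ * ∑ b, k b * ‖G a b‖ ^ 2 * Real.exp (β₁ * D a b) :=
        mul_le_mul_of_nonneg_left
          (Finset.sum_le_sum_of_subset_of_nonneg (Finset.subset_univ _) fun b _ _ => hnn b)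
          (div_nonneg hβ hβ2.le)
    _ ≤ β / β₁ * (C₁ * (m a).im) :=
        mul_le_mul_of_nonneg_left (hsum a ha) (div_nonneg hβ hβ2.le)
    _ = β / β₁ * C₁ * (m a).im := by ring


variable {d M : ℕ} [NeZero M]

/-- THE WEIGHTS for the regauging. `β = c k₀ / (48 d)`; `S₀` bounds `∑ exp (- β D / 2)`. -/
theorem wtsW {Γ : Geo (Tor d M)} (hΓ : GeoF Γ) {E e₀ k₀ : ℝ} {T : Cfg (Tor d M)} (he : 0 < e₀)
    (hm : ∀ x, 0 ≤ (T.s x : ℝ) * (T.mb x).im) {I : Finset ℕ} {Dn : ℕ → ℕ}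
    (dens : ∃ dd : ℕ → Finset (Tor d M), (∀ x, T.s x = 0 → ∃ j ∈ I, x ∈ dd j) ∧
      ∀ j B, (dd j ∩ Γ.blk j B).card ≤ Dn j)
    (hsum : ∑ i ∈ I, (3 ^ d * Dn i : ℝ) / Γ.L i ≤ 1 / 4) (hd : 1 ≤ d)
    (hk : 0 < k₀) (hk1 : k₀ ≤ 1) (hal : ∀ x, 0 < T.s x → k₀ ≤ kap e₀ T x)
    {R : Finset (Tor d M)} {s ε c c₀ : ℝ} (hc0 : 0 < c) (hc1 : c ≤ 1)
    (hR : RunW (net E e₀ T) (kap e₀ T) R T.mb s ε c₀) {S₀ r₁ : ℝ}
    (hS₀ : ∀ o, ∑ y, Real.exp (-(c * k₀ / (48 * d) / 2 * Γ.D o y)) ≤ S₀)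
    (hr : Real.exp (-(c * k₀ / (48 * d) * (r₁ - cI d Dn I))) * S₀ ≤ 1) :
    H89.Wts (net E e₀ T) R T.mb s c ((2 * (2 * (r₁ + cI d Dn I)) + 1) ^ d) := by
  obtain ⟨D, hD0, hDc, hDt, hD1, hDd, hDlow⟩ := alive_dist hΓ dens hsum
  have hd' : (1 : ℝ) ≤ d := by exact_mod_cast hd
  have hβ : 0 < c * k₀ / (48 * d) := by positivity
  set β := c * k₀ / (48 * d) with hβdef
  refine ⟨fun o a => Real.exp (-(β * D o a)), fun o => Finset.univ.filter fun b =>
    (D o b : ℝ) ≤ r₁, fun a b => Real.exp_pos _, fun a => by simp [hD0 a], ?_, fun o => ?_,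
    fun o => ?_⟩
  · -- the weight condition
    have hW : ∀ a ∈ R, ∑ b, kap e₀ T b * ‖net E e₀ T a b‖ ^ 2 *
        Real.exp (k₀ / (4 * d) * (D a b : ℝ)) ≤ 3 * (T.mb a).im := fun a ha => by
      have h1 := wwd_ad (E := E) he hm hD0 hDc hDt hD1 hDd hk hk1 hal a
      have h2 : (net E e₀ T a a).im ≤ 5 / 4 * (T.mb a).im := by
        have h3 := hR.hμ a ha
        have h4 : |(net E e₀ T a a - T.mb a).im| ≤ ε := (Complex.abs_im_le_norm _).trans h3
        rw [Complex.sub_im] at h4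
        have h5 := (abs_le.1 h4).2
        have h6 := hR.hε.2
        have h7 := (hR.hm a ha)
        linarith
      have h3 : 0 < (T.mb a).im := lt_of_lt_of_le hR.hc.1 (hR.hm a ha)
      refine le_trans (le_of_eq ?_) (h1.trans (by linarith))
      exact Finset.sum_congr rfl fun b _ => by ring
    intro o ho a ha
    have h2 := gcwW (G := net E e₀ T) (k := kap e₀ T) (β := β) (β₁ := k₀ / (4 * d)) (C₁ := 3)
      (D := fun a b => (D a b : ℝ)) hR
      (fun a b => ⟨Nat.cast_nonneg _, by exact_mod_cast hDc a b⟩)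
      (fun a b e => by
        have := hDt a e b
        exact_mod_cast this)
      hβ.le (by
        rw [hβdef]
        have h2 : c ≤ 1 := hc1
        rw [div_le_div_iff₀ (by positivity) (by positivity)]
        nlinarith [mul_pos hk (by positivity : (0 : ℝ) < d)])
      (by positivity) hW (o := o) ha
    have h3 : β / (k₀ / (4 * d)) * 3 = c / 4 := by
      rw [hβdef]; field_simp; norm_num
    rw [h3] at h2
    exact h2
  · -- the number of sites
    have h1 : (Finset.univ.filter fun b => (D o b : ℝ) ≤ r₁) ⊆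
        (Finset.univ.filter fun b => Γ.D o b ≤ ⌊2 * (r₁ + cI d Dn I)⌋₊) := fun b hb => by
      rw [Finset.mem_filter] at hb ⊢
      refine ⟨Finset.mem_univ _, Nat.le_floor ?_⟩
      have := hDlow o b
      linarith [hb.2]
    by_cases hneg : 0 ≤ r₁ + cI d Dn I
    · have h2 := (Finset.card_le_card h1).trans (hΓ.ok.vol o ⌊2 * (r₁ + cI d Dn I)⌋₊)
      have h3 : (((Finset.univ.filter fun b => (D o b : ℝ) ≤ r₁) : Finset (Tor d M)).card : ℝ) ≤
          (2 * (⌊2 * (r₁ + cI d Dn I)⌋₊ : ℝ) + 1) ^ d := by exact_mod_cast h2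
      refine h3.trans (pow_le_pow_left₀ (by positivity) ?_ d)
      have h4 : (⌊2 * (r₁ + cI d Dn I)⌋₊ : ℝ) ≤ 2 * (r₁ + cI d Dn I) :=
        Nat.floor_le (by linarith)
      linarith
    · exfalso
      push Not at hneg
      have h2 : 1 ≤ Real.exp (-(β * (r₁ - cI d Dn I))) := by
        rw [← Real.exp_zero]
        apply Real.exp_le_exp.2
        have := cI_pos d Dn I
        nlinarith
      have h3 : 1 < Real.exp (-(β * (r₁ - cI d Dn I))) := by
        rw [← Real.exp_zero]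
        apply Real.exp_lt_exp.2
        have := cI_pos d Dn I
        nlinarith
      have h4 : 1 ≤ S₀ := by
        refine le_trans ?_ (hS₀ o)
        have h5 : Real.exp (-(β / 2 * (Γ.D o o : ℝ))) ≤
            ∑ y, Real.exp (-(β / 2 * (Γ.D o y : ℝ))) :=
          Finset.single_le_sum (f := fun y => Real.exp (-(β / 2 * (Γ.D o y : ℝ))))
            (fun y _ => (Real.exp_pos _).le) (Finset.mem_univ o)
        rw [hΓ.ok.self o] at h5
        simpa using h5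
      nlinarith
  · -- the far part
    have h1 : ∀ b ∈ R \ (Finset.univ.filter fun b => (D o b : ℝ) ≤ r₁),
        Real.exp (-(β * (D o b : ℝ))) ^ 2 ≤ Real.exp (-(β * (r₁ - cI d Dn I))) *
          Real.exp (-(β / 2 * (Γ.D o b : ℝ))) := fun b hb => by
      rw [Finset.mem_sdiff, Finset.mem_filter] at hb
      have h2 : r₁ < (D o b : ℝ) := by
        by_contra hcon
        exact hb.2 ⟨Finset.mem_univ _, not_lt.1 hcon⟩
      have h3 := hDlow o b
      rw [← Real.exp_nat_mul, ← Real.exp_add]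
      apply Real.exp_le_exp.2
      push_cast
      nlinarith
    refine (Finset.sum_le_sum h1).trans ?_
    rw [← Finset.mul_sum]
    have h2 : ∑ b ∈ R \ (Finset.univ.filter fun b => (D o b : ℝ) ≤ r₁),
        Real.exp (-(β / 2 * (Γ.D o b : ℝ))) ≤ S₀ :=
      (Finset.sum_le_univ_sum_of_nonneg fun b => (Real.exp_pos _).le).trans (hS₀ o)
    exact (mul_le_mul_of_nonneg_left h2 (Real.exp_pos _).le).trans hr

/-- THE WEIGHTS, with the number of sites `C s⁻ᶜ`: `s` a lower bound of the clocks of the alive sites,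
`c₀` a lower bound of the gauge, `cI ≤ s⁻ᵖ` -/
theorem wts_sW (d : ℕ) (hd : 1 ≤ d) (c c₀ p : ℝ) (hc : 0 < c) (hc1 : c ≤ 1) (hc₀ : 0 < c₀)
    (hc₀1 : c₀ ≤ 1) (hp : 2 ≤ p) :
    ∃ Cw : ℝ, 1 ≤ Cw ∧ ∀ (M : ℕ) [NeZero M] (Γ : Geo (Tor d M)), GeoF Γ → SumE Γ →
      ∀ (E e₀ : ℝ) (T : Cfg (Tor d M)) (I : Finset ℕ) (Dn : ℕ → ℕ) (R : Finset (Tor d M))
        (s ε : ℝ), 0 < e₀ → 0 < s → s ≤ 1 →
        (∀ x, 0 < T.s x → s ≤ T.s x ∧ c₀ ≤ (T.mb x).im) →
        (∃ dd : ℕ → Finset (Tor d M), (∀ x, T.s x = 0 → ∃ j ∈ I, x ∈ dd j) ∧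
          ∀ j B, (dd j ∩ Γ.blk j B).card ≤ Dn j) →
        ∑ i ∈ I, (3 ^ d * Dn i : ℝ) / Γ.L i ≤ 1 / 4 → cI d Dn I ≤ s ^ (-p) →
        RunW (net E e₀ T) (kap e₀ T) R T.mb s ε c₀ →
        1 ≤ Cw * s ^ (-Cw) ∧ H89.Wts (net E e₀ T) R T.mb s c (Cw * s ^ (-Cw)) := by
  have hd' : (1 : ℝ) ≤ d := by exact_mod_cast hd
  set K : ℝ := 24 * ((d : ℝ) + 1) with hK
  set b₁ : ℝ := c * c₀ / (48 * d) with hb₁
  have hK0 : 0 < K := by positivity
  have hb0 : 0 < b₁ := by positivity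
  set A : ℝ := 8 + 8 * (d * K / b₁ ^ 2) + 1 with hA
  have hA1 : 1 ≤ A := by
    have : 0 ≤ d * K / b₁ ^ 2 := by positivity
    linarith
  set Cw : ℝ := max (A ^ d) (d * p) with hCw
  have hCw1 : 1 ≤ Cw := le_trans (one_le_pow₀ hA1) (le_max_left _ _)
  refine ⟨Cw, hCw1, ?_⟩
  intro M _ Γ hΓ hSE E e₀ T I Dn R s ε he hs hs1 hT dens hsum hcI hR
  have hm : ∀ x, 0 ≤ (T.s x : ℝ) * (T.mb x).im := fun x => by
    rcases eq_or_lt_of_le (zero_le (a := T.s x)) with h | h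
    · rw [← h]; simp
    · exact mul_nonneg (NNReal.coe_nonneg _) (hc₀.le.trans (hT x h).2)
  have hk0 : 0 < c₀ * s := by positivity
  have hk1 : c₀ * s ≤ 1 := by nlinarith
  have hal : ∀ x, 0 < T.s x → c₀ * s ≤ kap e₀ T x := fun x hx => by
    obtain ⟨h1, h2⟩ := hT x hx
    have h3 : c₀ * s ≤ (T.s x : ℝ) * (T.mb x).im := by nlinarith
    unfold kap
    linarith
  have hβ : c * (c₀ * s) / (48 * d) = b₁ * s := by rw [hb₁]; ring
  have hβ0 : 0 < b₁ * s := by positivity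
  have hb₁1 : b₁ ≤ 1 := by
    rw [hb₁, div_le_one (by positivity)]
    nlinarith
  have hβ1 : b₁ * s ≤ 1 := by nlinarith
  have hcI1 := cI_pos d Dn I
  set S₀ : ℝ := (K / (b₁ * s / 2)) ^ d with hS₀
  have hy : 1 ≤ K / (b₁ * s / 2) := by
    rw [le_div_iff₀ (by positivity)]
    have : (24 : ℝ) ≤ K := by rw [hK]; linarith
    linarith
  have hS1 : 1 ≤ S₀ := one_le_pow₀ hy
  set r₁ : ℝ := cI d Dn I + 1 / (b₁ * s) * Real.log S₀ with hr₁
  have hr : Real.exp (-(c * (c₀ * s) / (48 * d) * (r₁ - cI d Dn I))) * S₀ ≤ 1 := by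
    rw [hβ, hr₁]
    have h1 : b₁ * s * (cI d Dn I + 1 / (b₁ * s) * Real.log S₀ - cI d Dn I) = Real.log S₀ := by
      field_simp
      ring
    rw [h1, Real.exp_neg, Real.exp_log (by linarith)]
    rw [inv_mul_cancel₀ (by linarith)]
  have hw := wtsW (E := E) hΓ he hm dens hsum hd hk0 hk1 hal hc hc1 hR (S₀ := S₀) (r₁ := r₁)
    (fun o => by
      rw [hβ]
      have := hSE (b₁ * s / 2) (by positivity) (by linarith) o
      rw [hS₀, hK]
      exact this) hr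
  have hsp : ∀ q : ℝ, 0 ≤ q → 1 ≤ s ^ (-q) := fun q hq => by
    rw [Real.rpow_neg hs.le]
    exact (one_le_inv₀ (Real.rpow_pos_of_pos hs _)).2 (Real.rpow_le_one hs.le hs1 hq)
  have h2 : (1 : ℝ) / s ^ 2 ≤ s ^ (-p) := by
    rw [Real.rpow_neg hs.le, one_div]
    apply inv_anti₀ (Real.rpow_pos_of_pos hs _)
    rw [← Real.rpow_natCast]
    exact Real.rpow_le_rpow_of_exponent_ge hs hs1 (by push_cast; exact hp)
  have hlog : Real.log S₀ ≤ d * (2 * K / (b₁ * s)) := by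
    rw [hS₀, Real.log_pow]
    have h3 : Real.log (K / (b₁ * s / 2)) ≤ K / (b₁ * s / 2) - 1 :=
      Real.log_le_sub_one_of_pos (by linarith)
    have h4 : K / (b₁ * s / 2) = 2 * K / (b₁ * s) := by field_simp
    rw [h4] at h3
    have h5 : Real.log (K / (b₁ * s / 2)) ≤ 2 * K / (b₁ * s) := by rw [h4]; linarith
    exact mul_le_mul_of_nonneg_left h5 (by positivity)
  have hlog0 : 0 ≤ Real.log S₀ := Real.log_nonneg hS1
  have hr2 : 1 / (b₁ * s) * Real.log S₀ ≤ 2 * (d * K / b₁ ^ 2) * s ^ (-p) := by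
    calc 1 / (b₁ * s) * Real.log S₀ ≤ 1 / (b₁ * s) * (d * (2 * K / (b₁ * s))) :=
          mul_le_mul_of_nonneg_left hlog (by positivity)
      _ = 2 * (d * K / b₁ ^ 2) * (1 / s ^ 2) := by field_simp
      _ ≤ 2 * (d * K / b₁ ^ 2) * s ^ (-p) := mul_le_mul_of_nonneg_left h2 (by positivity)
  have hs_p := hsp p (by linarith)
  have hbase : 2 * (2 * (r₁ + cI d Dn I)) + 1 ≤ A * s ^ (-p) := by
    rw [hr₁, hA]
    have h5 : 0 ≤ d * K / b₁ ^ 2 := by positivity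
    nlinarith [mul_nonneg h5 (by linarith : (0 : ℝ) ≤ s ^ (-p))]
  have hr0 : 0 ≤ r₁ := by rw [hr₁]; positivity
  have hN : (2 * (2 * (r₁ + cI d Dn I)) + 1) ^ d ≤ Cw * s ^ (-Cw) := by
    calc (2 * (2 * (r₁ + cI d Dn I)) + 1) ^ d ≤ (A * s ^ (-p)) ^ d :=
          pow_le_pow_left₀ (by linarith) hbase d
      _ = A ^ d * s ^ (-(d * p)) := by
          rw [mul_pow, ← Real.rpow_natCast (s ^ (-p)) d, ← Real.rpow_mul hs.le]
          congr 2; ring
      _ ≤ Cw * s ^ (-Cw) := by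
          refine mul_le_mul (le_max_left _ _) ?_ (Real.rpow_nonneg hs.le _) (by linarith)
          exact Real.rpow_le_rpow_of_exponent_ge hs hs1 (neg_le_neg (le_max_right _ _))
  refine ⟨?_, hw.mono hN⟩
  have := hsp Cw (by linarith)
  nlinarith


/-- WTS -/
theorem wtsT : WtsStmt := by
  intro d c₀ C₀ hd hc hc1 hC
  obtain ⟨Cw, hCw, h⟩ := wts_sW d (by omega) (1 / 4) c₀ 2 (by norm_num) (by norm_num) hc hc1 le_rfl
  refine ⟨Cw, hCw, ?_⟩
  intro V U hl hΓ he hUc hUC T run s δ n dd hs hs1 hrun hcl hgb hmis hdd hcard hsum hcI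
  have hal : ∀ x, 0 < T.s x → x ∈ Al T := fun x hx => by
    rw [Al, Finset.mem_filter]
    exact ⟨Finset.mem_univ _, hx⟩
  have hrp : ∀ x ∈ run, 0 < T.s x := fun x hx => by
    have h1 := hrun x hx
    have h2 : (0 : ℝ) < T.s x := by rw [h1]; exact hs
    exact_mod_cast h2
  have hg : ∀ x, 0 < T.s x → c₀ ≤ (T.mb x).im := fun x hx => by
    rw [← hUc]
    exact (hgb x (hal x hx)).1
  have hkpos : ∀ x, 0 < kap U.e₀ T x := by
    intro x
    unfold kap
    have h2 : 0 ≤ (T.s x : ℝ) * (T.mb x).im := by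
      rcases eq_or_lt_of_le (zero_le (a := T.s x)) with h0 | h0
      · rw [← h0]
        simp
      · exact mul_nonneg (NNReal.coe_nonneg _) (hc.le.trans (hg x h0))
    linarith
  have hR : RunW (net U.E U.e₀ T) (kap U.e₀ T) run T.mb s (c₀ / 4) c₀ :=
    { hw := wk_net hkpos
      hs := hs
      hc := ⟨hc, hc1⟩
      hε := ⟨by positivity, le_rfl⟩
      hm := fun a ha => hg a (hrp a ha)
      hk := fun a ha => by
        unfold kap
        rw [hrun a ha]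
        linarith
      hμ := hmis }
  have h0 := (h (2 ^ V.μ) V.G (geoF_T d V.μ V.J V.N V.l V.r hl) (sumE_T d V.μ V.J V.N V.l V.r)
    U.E U.e₀ T (Finset.range n) V.Dn run s (c₀ / 4) he hs hs1
    (fun x hx => ⟨by
      rcases hcl x with h1 | h1
      · exact absurd h1 (pos_iff_ne_zero.1 hx)
      · exact h1, hg x hx⟩)
    ⟨dd, fun x hx => by
      obtain ⟨j, hj, hxj⟩ := hdd x hx
      exact ⟨j, Finset.mem_range.2 hj, hxj⟩, hcard⟩
    (by
      have : ∀ j, ((V.G.L j : ℕ) : ℝ) = 2 ^ V.l j := fun j => by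
        show ((2 ^ V.l j : ℕ) : ℝ) = _
        push_cast
        rfl
      simp_rw [this]
      exact hsum)
    (by
      unfold cI
      have : 0 ≤ ∑ j ∈ Finset.range n, (3 ^ d * V.Dn j : ℝ) :=
        Finset.sum_nonneg fun j _ => by positivity
      linarith) hR).2
  obtain ⟨e, B, w1, w2, w3, w4, w5⟩ := h0
  refine ⟨e, B, w1, w2, fun o ho a ha => ?_, w4, w5⟩
  have := w3 o ho a ha
  norm_num at this ⊢
  exact this

end Pool.Agent.AHH.H72
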