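import Pool.Agent.Helper72_AHH.Reg
import Pool.Agent.Helper62_AGU.GPF

/-!
# AHH, row GPA: the change of the form restricted to the nodes
-/

set_option autoImplicit false

open scoped BigOperators Matrix

noncomputable section

namespace Pool.Agent.AHH.H72

open Pool.Agent.AGU (WK Chg GwbStmt)
open Pool.Agent.AGU.H62 (vv vv_add vv_sq left right ident ef_eq kk)
open Pool.Agent.AFJ (EE cd)
open Pool.Agent.LE.QF (Dl KK)
open Pool.Agent.LTG (qd)

variable {X : Type} [Fintype X] [DecidableEq X]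

/-- the restriction of a matrix -/
def msk (A : Finset X) (M : Matrix X X ℂ) : Matrix X X ℂ :=
  fun a b => if a ∈ A ∧ b ∈ A then M a b else 0

omit [Fintype X] in
theorem msk_apply (A : Finset X) (M : Matrix X X ℂ) (a b : X) :
    msk A M a b = if a ∈ A ∧ b ∈ A then M a b else 0 := rfl

omit [Fintype X] in
theorem msk_add (A : Finset X) (M M' : Matrix X X ℂ) : msk A (M + M') = msk A M + msk A M' := by
  ext a b
  show (if a ∈ A ∧ b ∈ A then M a b + M' a b else 0) =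
    (if a ∈ A ∧ b ∈ A then M a b else 0) + (if a ∈ A ∧ b ∈ A then M' a b else 0)
  split_ifs
  · rfl
  · rw [add_zero]

theorem msk_le {k : X → ℝ} (hk : ∀ a, 0 < k a) (A : Finset X) (M : Matrix X X ℂ) :
    ‖vv k (msk A M)‖ ≤ ‖vv k M‖ := by
  apply (pow_le_pow_iff_left₀ (norm_nonneg _) (norm_nonneg _) two_ne_zero).1
  rw [vv_sq hk, vv_sq hk]
  refine Finset.sum_le_sum fun a _ => Finset.sum_le_sum fun b _ => ?_
  have h0 := (mul_pos (hk a) (hk b)).le
  rw [msk_apply]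
  split_ifs
  · exact le_rfl
  · rw [norm_zero]
    have : 0 ≤ k a * k b * ‖M a b‖ ^ 2 := mul_nonneg h0 (sq_nonneg _)
    simpa using this

theorem msk_left (A : Finset X) (G M : Matrix X X ℂ) {z : X → ℂ} (hz : ∀ x, x ∉ A → z x = 0) :
    msk A (G * Matrix.diagonal z * M) = msk A (G * Matrix.diagonal z * msk A M) := by
  ext a b
  rw [msk_apply, msk_apply]
  split_ifs with h
  · rw [Matrix.mul_apply, Matrix.mul_apply]
    refine Finset.sum_congr rfl fun c _ => ?_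
    rw [Matrix.mul_diagonal, msk_apply]
    by_cases hc : c ∈ A
    · rw [if_pos ⟨hc, h.2⟩]
    · rw [hz c hc]
      simp
  · rfl

theorem msk_right (A : Finset X) (G M : Matrix X X ℂ) {z : X → ℂ} (hz : ∀ x, x ∉ A → z x = 0) :
    msk A (M * Matrix.diagonal z * G) = msk A (msk A M * Matrix.diagonal z * G) := by
  ext a b
  rw [msk_apply, msk_apply]
  split_ifs with h
  · rw [Matrix.mul_apply, Matrix.mul_apply]
    refine Finset.sum_congr rfl fun c _ => ?_
    rw [Matrix.mul_diagonal, Matrix.mul_diagonal, msk_apply]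
    by_cases hc : c ∈ A
    · rw [if_pos ⟨h.1, hc⟩]
    · rw [hz c hc]
      simp
  · rfl

/-- the form of the nodes -/
theorem qd_EE {G : Matrix X X ℂ} {k : X → ℝ} (hG : ∀ a b, G a b = G b a) (A : Finset X)
    (f : X → ℝ) : qd (EE G k A) f =
      1 / 2 * ∑ a, ∑ b, if a ∈ A ∧ b ∈ A then k a * k b * ‖G a b‖ ^ 2 * (f a - f b) ^ 2 else 0 := by
  obtain ⟨K, hK⟩ : ∃ K : Matrix X X ℝ, K = cd G k A := ⟨_, rfl⟩
  have hs : ∀ a b, K a b = K b a := by
    intro a b
    rw [hK]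
    unfold cd KK
    rw [hG a b]
    by_cases h : a ∈ A ∧ b ∈ A
    · rw [if_pos h, if_pos ⟨h.2, h.1⟩]
      ring
    · rw [if_neg h, if_neg fun h' => h ⟨h'.2, h'.1⟩]
  have h1 : qd (EE G k A) f = ∑ a, ∑ b, K a b * (f a * (f a - f b)) := by
    unfold qd EE
    rw [← hK]
    refine Finset.sum_congr rfl fun a _ => ?_
    unfold Dl
    rw [Matrix.sub_mulVec, Pi.sub_apply, Matrix.mulVec_diagonal, Matrix.mulVec, dotProduct,
      Finset.sum_mul, ← Finset.sum_sub_distrib, Finset.mul_sum]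
    refine Finset.sum_congr rfl fun b _ => ?_
    ring
  have h2 : ∑ a, ∑ b, K a b * (f a * (f a - f b)) = ∑ a, ∑ b, K a b * (f b * (f b - f a)) := by
    rw [Finset.sum_comm]
    refine Finset.sum_congr rfl fun a _ => Finset.sum_congr rfl fun b _ => ?_
    rw [hs b a]
  have h3 : ∑ a, ∑ b, K a b * (f a - f b) ^ 2 = 2 * ∑ a, ∑ b, K a b * (f a * (f a - f b)) := by
    rw [two_mul]
    nth_rw 2 [h2]
    rw [← Finset.sum_add_distrib]
    refine Finset.sum_congr rfl fun a _ => ?_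
    rw [← Finset.sum_add_distrib]
    refine Finset.sum_congr rfl fun b _ => ?_
    ring
  have h4 : (∑ a, ∑ b, if a ∈ A ∧ b ∈ A then k a * k b * ‖G a b‖ ^ 2 * (f a - f b) ^ 2 else 0) =
      ∑ a, ∑ b, K a b * (f a - f b) ^ 2 := by
    refine Finset.sum_congr rfl fun a _ => Finset.sum_congr rfl fun b _ => ?_
    rw [hK]
    unfold cd KK
    split_ifs
    · rfl
    · rw [zero_mul]
  rw [h1, h4, h3]
  ring

/-- the form as a norm -/
theorem qd_norm {G : Matrix X X ℂ} {k : X → ℝ} (hG : ∀ a b, G a b = G b a) (hk : ∀ a, 0 < k a)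
    (A : Finset X) (f : X → ℝ) : qd (EE G k A) f = 1 / 2 *
      ‖vv k (msk A (Matrix.diagonal (fun a => (f a : ℂ)) * G -
        G * Matrix.diagonal (fun a => (f a : ℂ))))‖ ^ 2 := by
  rw [qd_EE hG, vv_sq hk]
  refine congrArg (fun x => 1 / 2 * x) ?_
  refine Finset.sum_congr rfl fun a _ => Finset.sum_congr rfl fun b _ => ?_
  rw [msk_apply]
  by_cases h : a ∈ A ∧ b ∈ A
  · rw [if_pos h, if_pos h, ef_eq G f a b]
  · rw [if_neg h, if_neg h]
    simp

theorem gpa (hG : GwbStmt) : GpaStmt := by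
  intro X _ _ G G' k k' z d A h hz f
  have hd := h.hd
  have hk := h.h0.hk
  set F : Matrix X X ℂ := Matrix.diagonal (fun a => (f a : ℂ)) * G -
      G * Matrix.diagonal (fun a => (f a : ℂ)) with hF
  set F' : Matrix X X ℂ := Matrix.diagonal (fun a => (f a : ℂ)) * G' -
      G' * Matrix.diagonal (fun a => (f a : ℂ)) with hF'
  set N : ℝ := ‖vv k (msk A F)‖ with hN
  set N' : ℝ := ‖vv k (msk A F')‖ with hN'
  have hN0 : 0 ≤ N := norm_nonneg _
  have hN0' : 0 ≤ N' := norm_nonneg _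
  have hEF : qd (EE G k A) f = 1 / 2 * N ^ 2 := qd_norm h.h0.hs hk A f
  have hid := ident h (fun a => (f a : ℂ))
  rw [← hF, ← hF'] at hid
  -- the norm of the difference
  have hdiff : ‖vv k (msk A (G' * Matrix.diagonal z * F + F * Matrix.diagonal z * G' +
      G' * Matrix.diagonal z * (F * Matrix.diagonal z * G')))‖ ≤ 7 / 2 * d * N := by
    rw [msk_add, msk_add, vv_add, vv_add]
    have h1 : ‖vv k (msk A (G' * Matrix.diagonal z * F))‖ ≤ 4 / 3 * d * N := by
      rw [msk_left A G' F hz]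
      exact (msk_le hk A _).trans (left hG h (msk A F))
    have h2 : ‖vv k (msk A (F * Matrix.diagonal z * G'))‖ ≤ 4 / 3 * d * N := by
      rw [msk_right A G' F hz]
      exact (msk_le hk A _).trans (right hG h (msk A F))
    have h3 : ‖vv k (msk A (G' * Matrix.diagonal z * (F * Matrix.diagonal z * G')))‖ ≤
        4 / 3 * d * (4 / 3 * d * N) := by
      rw [msk_left A G' _ hz]
      refine (msk_le hk A _).trans ((left hG h _).trans ?_)
      exact mul_le_mul_of_nonneg_left h2 (by linarith [hd.1])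
    have h5 : 4 / 3 * d * (4 / 3 * d * N) ≤ 4 / 9 * d * N := by
      have : 0 ≤ d * N := mul_nonneg hd.1 hN0
      nlinarith [hd.2]
    have h6 : 0 ≤ d * N := mul_nonneg hd.1 hN0
    refine (norm_add_le _ _).trans ?_
    have h7 := norm_add_le (vv k (msk A (G' * Matrix.diagonal z * F)))
      (vv k (msk A (F * Matrix.diagonal z * G')))
    linarith
  have hup : N' ≤ (1 + 7 / 2 * d) * N := by
    have e : vv k (msk A F') = vv k (msk A F) + vv k (msk A (G' * Matrix.diagonal z * F +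
        F * Matrix.diagonal z * G' +
        G' * Matrix.diagonal z * (F * Matrix.diagonal z * G'))) := by
      rw [← vv_add, ← msk_add, ← hid]
    rw [hN', e]
    refine (norm_add_le _ _).trans ?_
    linarith
  have hlo : (1 - 7 / 2 * d) * N ≤ N' := by
    have e : vv k (msk A F) = vv k (msk A F') - vv k (msk A (G' * Matrix.diagonal z * F +
        F * Matrix.diagonal z * G' +
        G' * Matrix.diagonal z * (F * Matrix.diagonal z * G'))) := by
      rw [eq_sub_iff_add_eq, ← vv_add, ← msk_add, ← hid]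
    have h1 : N ≤ N' + 7 / 2 * d * N := by
      calc N = ‖vv k (msk A F') - vv k (msk A (G' * Matrix.diagonal z * F +
        F * Matrix.diagonal z * G' +
        G' * Matrix.diagonal z * (F * Matrix.diagonal z * G')))‖ := by rw [hN, e]
        _ ≤ _ := (norm_sub_le _ _).trans (by linarith)
    linarith
  -- the weights
  have hN2 : N' ^ 2 = ∑ a, ∑ b, if a ∈ A ∧ b ∈ A then
      k a * k b * ‖G' a b‖ ^ 2 * (f a - f b) ^ 2 else 0 := by
    rw [hN', vv_sq hk]
    refine Finset.sum_congr rfl fun a _ => Finset.sum_congr rfl fun b _ => ?_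
    rw [msk_apply]
    by_cases hab : a ∈ A ∧ b ∈ A
    · rw [if_pos hab, if_pos hab, hF', ef_eq (k := k) G' f a b]
    · rw [if_neg hab, if_neg hab]
      simp
  have hEF1 : qd (EE G' k' A) f ≤ (1 + d) ^ 2 * (1 / 2 * N' ^ 2) := by
    rw [qd_EE h.h1.hs, hN2]
    have : (1 + d) ^ 2 * (1 / 2 * ∑ a, ∑ b, if a ∈ A ∧ b ∈ A then
        k a * k b * ‖G' a b‖ ^ 2 * (f a - f b) ^ 2 else 0) =
        1 / 2 * ∑ a, ∑ b, (1 + d) ^ 2 * (if a ∈ A ∧ b ∈ A then
          k a * k b * ‖G' a b‖ ^ 2 * (f a - f b) ^ 2 else 0) := by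
      simp only [Finset.mul_sum]
      refine Finset.sum_congr rfl fun a _ => Finset.sum_congr rfl fun b _ => ?_
      ring
    rw [this]
    refine mul_le_mul_of_nonneg_left ?_ (by norm_num)
    refine Finset.sum_le_sum fun a _ => Finset.sum_le_sum fun b _ => ?_
    by_cases hab : a ∈ A ∧ b ∈ A
    · rw [if_pos hab, if_pos hab]
      have ha := kk h a
      have hb := kk h b
      have ha0 := hk a
      have hb0 := hk b
      have h1 : k' a * k' b ≤ ((1 + d) * k a) * ((1 + d) * k b) :=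
        mul_le_mul ha.2 hb.2 (h.h1.hk b).le (by nlinarith [hd.1])
      have h2 : 0 ≤ ‖G' a b‖ ^ 2 * (f a - f b) ^ 2 := by positivity
      calc k' a * k' b * ‖G' a b‖ ^ 2 * (f a - f b) ^ 2
          = k' a * k' b * (‖G' a b‖ ^ 2 * (f a - f b) ^ 2) := by ring
        _ ≤ ((1 + d) * k a) * ((1 + d) * k b) * (‖G' a b‖ ^ 2 * (f a - f b) ^ 2) :=
            mul_le_mul_of_nonneg_right h1 h2
        _ = (1 + d) ^ 2 * (k a * k b * ‖G' a b‖ ^ 2 * (f a - f b) ^ 2) := by ring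
    · rw [if_neg hab, if_neg hab, mul_zero]
  have hEF2 : (1 - d) ^ 2 * (1 / 2 * N' ^ 2) ≤ qd (EE G' k' A) f := by
    rw [qd_EE h.h1.hs, hN2]
    have : (1 - d) ^ 2 * (1 / 2 * ∑ a, ∑ b, if a ∈ A ∧ b ∈ A then
        k a * k b * ‖G' a b‖ ^ 2 * (f a - f b) ^ 2 else 0) =
        1 / 2 * ∑ a, ∑ b, (1 - d) ^ 2 * (if a ∈ A ∧ b ∈ A then
          k a * k b * ‖G' a b‖ ^ 2 * (f a - f b) ^ 2 else 0) := by
      simp only [Finset.mul_sum]
      refine Finset.sum_congr rfl fun a _ => Finset.sum_congr rfl fun b _ => ?_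
      ring
    rw [this]
    refine mul_le_mul_of_nonneg_left ?_ (by norm_num)
    refine Finset.sum_le_sum fun a _ => Finset.sum_le_sum fun b _ => ?_
    by_cases hab : a ∈ A ∧ b ∈ A
    · rw [if_pos hab, if_pos hab]
      have ha := kk h a
      have hb := kk h b
      have ha0 := hk a
      have hb0 := hk b
      have h1 : ((1 - d) * k a) * ((1 - d) * k b) ≤ k' a * k' b :=
        mul_le_mul ha.1 hb.1 (by nlinarith [hd.2]) (h.h1.hk a).le
      have h2 : 0 ≤ ‖G' a b‖ ^ 2 * (f a - f b) ^ 2 := by positivity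
      calc (1 - d) ^ 2 * (k a * k b * ‖G' a b‖ ^ 2 * (f a - f b) ^ 2)
          = ((1 - d) * k a) * ((1 - d) * k b) * (‖G' a b‖ ^ 2 * (f a - f b) ^ 2) := by ring
        _ ≤ k' a * k' b * (‖G' a b‖ ^ 2 * (f a - f b) ^ 2) := mul_le_mul_of_nonneg_right h1 h2
        _ = k' a * k' b * ‖G' a b‖ ^ 2 * (f a - f b) ^ 2 := by ring
    · rw [if_neg hab, if_neg hab, mul_zero]
  have hNN : 0 ≤ N ^ 2 := sq_nonneg _
  have hup2 : N' ^ 2 ≤ (1 + 7 / 2 * d) ^ 2 * N ^ 2 := by
    rw [← mul_pow]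
    exact pow_le_pow_left₀ hN0' hup 2
  have hlo2 : (1 - 7 / 2 * d) ^ 2 * N ^ 2 ≤ N' ^ 2 := by
    rw [← mul_pow]
    exact pow_le_pow_left₀ (mul_nonneg (by linarith [hd.2]) hN0) hlo 2
  rw [hEF, abs_le]
  constructor
  · have h1 : (1 - d) ^ 2 * (1 / 2 * ((1 - 7 / 2 * d) ^ 2 * N ^ 2)) ≤ qd (EE G' k' A) f := by
      refine le_trans ?_ hEF2
      gcongr
    have h2 : 1 - 20 * d ≤ (1 - d) ^ 2 * (1 - 7 / 2 * d) ^ 2 := by
      have h3 : 1 - 9 / 2 * d ≤ (1 - d) * (1 - 7 / 2 * d) := by nlinarith [hd.1]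
      rcases le_or_gt 0 (1 - 9 / 2 * d) with h4 | h4
      · have h5 : (1 - 9 / 2 * d) ^ 2 ≤ ((1 - d) * (1 - 7 / 2 * d)) ^ 2 :=
          pow_le_pow_left₀ h4 h3 2
        rw [mul_pow] at h5
        nlinarith [hd.1, sq_nonneg d]
      · have h5 : 0 ≤ (1 - d) ^ 2 * (1 - 7 / 2 * d) ^ 2 := by positivity
        linarith
    have h3 : (1 - 20 * d) * (1 / 2 * N ^ 2) ≤
        (1 - d) ^ 2 * (1 - 7 / 2 * d) ^ 2 * (1 / 2 * N ^ 2) :=
      mul_le_mul_of_nonneg_right h2 (by positivity)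
    have h4 : (1 - d) ^ 2 * (1 / 2 * ((1 - 7 / 2 * d) ^ 2 * N ^ 2)) =
        (1 - d) ^ 2 * (1 - 7 / 2 * d) ^ 2 * (1 / 2 * N ^ 2) := by ring
    rw [h4] at h1
    linarith
  · have h1 : qd (EE G' k' A) f ≤ (1 + d) ^ 2 * (1 / 2 * ((1 + 7 / 2 * d) ^ 2 * N ^ 2)) := by
      refine le_trans hEF1 ?_
      gcongr
    have h2 : (1 + d) ^ 2 * (1 + 7 / 2 * d) ^ 2 ≤ 1 + 20 * d := by
      have h3 : (1 + d) * (1 + 7 / 2 * d) ≤ 1 + 43 / 8 * d := by
        nlinarith [hd.1, hd.2, mul_nonneg hd.1 (sub_nonneg.2 hd.2)]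
      have h4 : 0 ≤ (1 + d) * (1 + 7 / 2 * d) := by
        have := hd.1
        positivity
      have h5 : ((1 + d) * (1 + 7 / 2 * d)) ^ 2 ≤ (1 + 43 / 8 * d) ^ 2 :=
        pow_le_pow_left₀ h4 h3 2
      rw [mul_pow] at h5
      nlinarith [hd.1, hd.2, mul_nonneg hd.1 (sub_nonneg.2 hd.2)]
    have h3 : (1 + d) ^ 2 * (1 + 7 / 2 * d) ^ 2 * (1 / 2 * N ^ 2) ≤
        (1 + 20 * d) * (1 / 2 * N ^ 2) :=
      mul_le_mul_of_nonneg_right h2 (by positivity)
    have h4 : (1 + d) ^ 2 * (1 / 2 * ((1 + 7 / 2 * d) ^ 2 * N ^ 2)) =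
        (1 + d) ^ 2 * (1 + 7 / 2 * d) ^ 2 * (1 / 2 * N ^ 2) := by ring
    rw [h4] at h1
    linarith


end Pool.Agent.AHH.H72
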