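import Pool.Agent.Helper72_AHH.RegT
import Pool.Agent.Helper72_AHH.Gpa

/-!
# AHH, row REG without hypotheses
-/

set_option autoImplicit false

namespace Pool.Agent.AHH.H72

open Pool.Agent.AHH

/-- GPA without hypotheses -/
theorem gpaT : GpaStmt := gpa Pool.Agent.AGU.H99.gwb

/-- REG without hypotheses -/
theorem regT : RegStmt := reg gpaT

end Pool.Agent.AHH.H72
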