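import Pool.Agent.AGU.Stmts

/-!
# AGU: the regauging without the last conclusion (after helper49, `Helper49_AGU/GFI.lean`)
-/

set_option autoImplicit false

open scoped BigOperators

noncomputable section

namespace Pool.Agent.AHH.H72

open Pool.Agent.AGU

/-- the conclusion of the regauging: `L` is `C (1 + log N)` -/
def Rgd {X : Type} [Fintype X] [DecidableEq X] (G : Matrix X X ℂ) (k : X → ℝ) (R : Finset X)
    (m : X → ℂ) (s ε c₀ L : ℝ) (δ : X → ℂ) : Prop :=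
  (∀ a, a ∉ R → δ a = 0) ∧ (∀ a, ‖δ a‖ ≤ L * ε) ∧ (∀ a, ‖(s : ℂ) * δ a‖ ≤ L * ε / c₀ * k a) ∧
    ∀ (G' : Matrix X X ℂ) (k' : X → ℝ), Chg G G' k k' (fun a => (s : ℂ) * δ a) (L * ε / c₀) →
      ∀ a ∈ R, ‖G' a a - (m a + δ a)‖ ≤ L ^ 2 * ε ^ 2

/-- the regauging -/
def Gfi'Stmt : Prop :=
  ∀ c c₀ C₀ : ℝ, 0 < c → 0 < c₀ → 1 ≤ C₀ → ∃ C : ℝ, 1 ≤ C ∧
    ∀ (X : Type) [Fintype X] [DecidableEq X] (G : Matrix X X ℂ) (k : X → ℝ) (R : Finset X)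
      (m : X → ℂ) (s ε : ℝ) (e : X → X → ℝ) (B : X → Finset X) (N : ℝ),
      Run G k R m s ε c c₀ C₀ → 1 ≤ N → (∀ a b, 0 < e a b) → (∀ a, e a a = 1) →
      (∀ o ∈ R, ∀ a ∈ R, ∑ b ∈ R, s * ‖G a b‖ ^ 2 *
        (|1 - e o a / e o b| ⊔ |1 - e o b / e o a|) * (m b).im ≤ c / 4 * (m a).im) →
      (∀ o, ((B o).card : ℝ) ≤ N) → (∀ o, ∑ b ∈ R \ B o, e o b ^ 2 ≤ 1) →
      ∃ δ : X → ℂ, Rgd G k R m s ε c₀ (C * (1 + Real.log N)) δ

theorem ward {X : Type} [Fintype X] {G : Matrix X X ℂ} {k : X → ℝ} (h : WK G k) (a : X) :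
    ∑ b, k b * ‖G a b‖ ^ 2 = (G a a).im := by
  have h1 := h.hw a a
  have h2 : ∀ c, (k c : ℂ) * (starRingEnd ℂ) (G a c) * G c a = ((k c * ‖G a c‖ ^ 2 : ℝ) : ℂ) := by
    intro c
    rw [h.hs c a, mul_assoc, Complex.conj_mul']
    push_cast
    ring
  rw [Finset.sum_congr rfl fun c _ => h2 c, ← Complex.ofReal_sum] at h1
  exact Complex.ofReal_injective h1

theorem gfi' (gnw : GnwStmt) (gpb : GpbStmt) : Gfi'Stmt := by
  intro c c₀ C₀ hc hc₀ hC₀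
  obtain ⟨C, hC1, hC⟩ := gnw c c₀ C₀ hc hc₀ hC₀
  obtain ⟨C', hC'⟩ : ∃ C' : ℝ, C' = 6 * (C₀ + 1) / c₀ + 1 := ⟨_, rfl⟩
  have hq : 0 ≤ 6 * (C₀ + 1) / c₀ := by positivity
  have hC'1 : 1 ≤ C' := by rw [hC']; linarith
  have hC'2 : 2 * (C₀ + 1) / c₀ ^ 2 + 1 ≤ C' ^ 2 := by
    have e1 : (6 * (C₀ + 1) / c₀) ^ 2 = 36 * (C₀ + 1) ^ 2 / c₀ ^ 2 := by ring
    have e2 : 2 * (C₀ + 1) / c₀ ^ 2 ≤ 36 * (C₀ + 1) ^ 2 / c₀ ^ 2 := by
      refine div_le_div_of_nonneg_right ?_ (by positivity)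
      nlinarith
    rw [hC']
    nlinarith
  refine ⟨C' * C, by nlinarith, ?_⟩
  intro X _ _ G k R m s ε e B N hrun hN he1 he2 he3 hB1 hB2
  obtain ⟨δ, hδ0, hδ1, hδ2⟩ := hC X G k R m s ε e B N hrun hN he1 he2 he3 hB1 hB2
  have hlog : 0 ≤ Real.log N := Real.log_nonneg hN
  obtain ⟨L₁, hL₁⟩ : ∃ L₁ : ℝ, L₁ = C * (1 + Real.log N) := ⟨_, rfl⟩
  have hL₁1 : 1 ≤ L₁ := by rw [hL₁]; nlinarith
  have hL : C' * C * (1 + Real.log N) = C' * L₁ := by rw [hL₁]; ring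
  rw [hL]
  rw [← hL₁] at hδ1 hδ2
  obtain ⟨L, hLd⟩ : ∃ L : ℝ, L = C' * L₁ := ⟨_, rfl⟩
  rw [← hLd]
  have hLL : L₁ ≤ L := by rw [hLd]; nlinarith
  have hε0 := hrun.hε.1
  have hk0 : ∀ a, 0 < k a := hrun.hw.hk
  -- `s ≤ k / c₀` on `R`
  have hsk : ∀ a ∈ R, s ≤ k a / c₀ := by
    intro a ha
    rw [le_div_iff₀ hc₀]
    calc s * c₀ ≤ s * (m a).im := by
          exact mul_le_mul_of_nonneg_left (hrun.hm a ha).1 hrun.hs.le
      _ ≤ k a := hrun.hk a ha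
  have hz1 : ∀ a, ‖(s : ℂ) * δ a‖ ≤ L₁ * ε / c₀ * k a := by
    intro a
    by_cases ha : a ∈ R
    · rw [norm_mul, Complex.norm_real, Real.norm_of_nonneg hrun.hs.le]
      calc s * ‖δ a‖ ≤ (k a / c₀) * (L₁ * ε) := by
            refine mul_le_mul (hsk a ha) (hδ1 a) (norm_nonneg _) ?_
            exact div_nonneg (hk0 a).le hc₀.le
        _ = L₁ * ε / c₀ * k a := by ring
    · rw [hδ0 a ha, mul_zero, norm_zero]
      have := (hk0 a).le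
      positivity
  refine ⟨δ, hδ0, fun a => (hδ1 a).trans (mul_le_mul_of_nonneg_right hLL hε0), fun a => ?_, ?_⟩
  · refine (hz1 a).trans ?_
    have := (hk0 a).le
    refine mul_le_mul_of_nonneg_right ?_ this
    exact div_le_div_of_nonneg_right (mul_le_mul_of_nonneg_right hLL hε0) hc₀.le
  intro G' k' hch
  obtain ⟨d, hd⟩ : ∃ d : ℝ, d = L₁ * ε / c₀ := ⟨_, rfl⟩
  have hd0 : 0 ≤ d := by rw [hd]; positivity
  have hdd : d ≤ L * ε / c₀ := by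
    rw [hd]
    exact div_le_div_of_nonneg_right (mul_le_mul_of_nonneg_right hLL hε0) hc₀.le
  have hd4 : d ≤ 1 / 4 := hdd.trans hch.hd.2
  have hch' : Chg G G' k k' (fun a => (s : ℂ) * δ a) d :=
    ⟨hch.h0, hch.h1, ⟨hd0, hd4⟩, fun a => by rw [hd]; exact hz1 a, hch.hk, hch.hr⟩
  obtain ⟨p1, -, p3, p4, -, -⟩ := gpb X G G' k k' _ d hch'
  have hεle : ε ≤ 1 / 4 := by
    have := hrun.hε.2
    have := hrun.hc.2.2.2.1
    linarith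
  have hg : ∀ a ∈ R, (G a a).im ≤ C₀ + 1 := by
    intro a ha
    have h1 := Complex.abs_im_le_norm (G a a - m a)
    rw [Complex.sub_im] at h1
    have h2 := (abs_le.1 (h1.trans (hrun.hμ a ha))).2
    have h3 := (hrun.hm a ha).2
    linarith
  have hgp : ∀ a, 0 ≤ (G a a).im := by
    intro a
    rw [← ward hch.h0 a]
    exact Finset.sum_nonneg fun b _ => mul_nonneg (hk0 b).le (by positivity)
  intro a ha
  have hs1 : ∑ c, G a c ^ 2 * ((s : ℂ) * δ c) = ∑ b ∈ R, s * G a b ^ 2 * δ b := by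
    rw [← Finset.sum_subset (Finset.subset_univ R)]
    · exact Finset.sum_congr rfl fun b _ => by ring
    · intro b _ hb
      rw [hδ0 b hb, mul_zero, mul_zero]
  have h1 := p4 a
  rw [hs1] at h1
  have h2 := hδ2 a ha
  have h3 : G' a a - (m a + δ a) = (G' a a - G a a - ∑ b ∈ R, s * G a b ^ 2 * δ b) -
      (δ a - (G a a - m a) - ∑ b ∈ R, s * G a b ^ 2 * δ b) := by ring
  rw [h3]
  refine (norm_sub_le _ _).trans ((add_le_add h1 h2).trans ?_)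
  have h4 : 2 * d ^ 2 * (G a a).im ≤ 2 * (C₀ + 1) / c₀ ^ 2 * (L₁ ^ 2 * ε ^ 2) := by
    calc 2 * d ^ 2 * (G a a).im ≤ 2 * d ^ 2 * (C₀ + 1) :=
          mul_le_mul_of_nonneg_left (hg a ha) (by positivity)
      _ = 2 * (C₀ + 1) / c₀ ^ 2 * (L₁ ^ 2 * ε ^ 2) := by rw [hd]; ring
  have h5 : L₁ * ε ^ 2 ≤ 1 * (L₁ ^ 2 * ε ^ 2) := by
    rw [one_mul]
    refine mul_le_mul_of_nonneg_right ?_ (by positivity)
    nlinarith
  have h6 : L ^ 2 * ε ^ 2 = C' ^ 2 * (L₁ ^ 2 * ε ^ 2) := by rw [hLd]; ring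
  rw [h6]
  have h7 : 0 ≤ L₁ ^ 2 * ε ^ 2 := by positivity
  nlinarith

end Pool.Agent.AHH.H72
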