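import Pool.Agent.AHH.Defs
import Pool.Agent.AGU.Stmts
import Pool.Agent.ABY.Stmts
import Pool.Agent.Helper72_AHH.Chg
import Pool.Agent.Helper72_AHH.Gfi

/-!
# AHH, row REG: a good configuration after the change of the gauge
-/

set_option autoImplicit false

open scoped BigOperators NNReal Matrix ComplexConjugate

noncomputable section

namespace Pool.Agent.AHH.H72

open Pool.Agent.ANR (Gr Net)
open Pool.Agent.AGU (WK Chg GpbStmt GhoStmt)
open Pool.Agent.BED (Tor)
open Pool.Agent.LE.QF (BB KK)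
open Pool.Agent.AND2B (net kap Vef Hr res)
open Pool.Agent.ANP (Cfg)
open Pool.Agent.AFJ (ind LaR EE)
open Pool.Agent.ABY (vir Yin)
open Pool.Agent.LTG (Fm Bd sT tT qd LB UB mor bon wl wu)

/-- YREG (helper90): block Y after a change of the gauge -/
def YregStmt (K : ℝ → ℝ → ℝ → ℝ) : Prop :=
  ∀ (X : Type) [Fintype X] [DecidableEq X] (G G' : Matrix X X ℂ) (k k' : X → ℝ) (z dl : X → ℂ)
    (d s c₀ C₀ Cg th e : ℝ) (g : X → ℝ) (R : Finset X), Chg G G' k k' z d → 0 < s → 0 < c₀ →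
    1 ≤ C₀ → (∀ a, z a = s * dl a) → (∀ a, ‖dl a‖ ≤ e) → e ≤ c₀ / 4 →
    (∀ a ∈ R, c₀ ≤ g a ∧ g a ≤ C₀ ∧ s * g a ≤ k a ∧ (G a a).im ≤ Cg) →
    Yin G 0 (fun x => ind R x * (s * g x)) g R th → 0 ≤ th → th ≤ 1 →
    Yin G' 0 (fun x => ind R x * (s * (g x + (dl x).im))) (fun x => g x + (dl x).im) R
      (th + K c₀ C₀ Cg * (d + e))

/-- GPA (helper62): the change of the form restricted to the nodes `A`, `z = 0` off `A` -/
def GpaStmt : Prop :=
  ∀ (X : Type) [Fintype X] [DecidableEq X] (G G' : Matrix X X ℂ) (k k' : X → ℝ) (z : X → ℂ)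
    (d : ℝ) (A : Finset X), Chg G G' k k' z d → (∀ x, x ∉ A → z x = 0) → ∀ f : X → ℝ,
    |qd (EE G' k' A) f - qd (EE G k A) f| ≤ 20 * d * qd (EE G k A) f

/-! ### scaling of the normal form -/

section scale

variable {X ep : Type*} [Fintype X] [DecidableEq X] [Fintype ep]

omit [DecidableEq X] in
theorem mor_smul (s t : ep → X) (al : X → ℝ) (be : ep → ℝ) (c : ℝ) (f h : X → ℝ) :
    mor s t (fun x => c * al x) (fun e => c * be e) f h = c * mor s t al be f h := by
  unfold mor bon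
  rw [mul_add, Finset.mul_sum, Finset.mul_sum]
  congr 1
  · exact Finset.sum_congr rfl fun x _ => by ring
  · exact Finset.sum_congr rfl fun x _ => by ring

/-- the normal form after a relative change of the form and of the weights -/
theorem fm_change {s t : ep → X} {A : Finset X} {w w' εl εu : X → ℝ} {bl bu : ep → ℝ}
    {Q Q' : (X → ℝ) → ℝ} {D : ℝ} (h : Fm s t A w εl εu bl bu Q) (hD : 0 ≤ D) (hD1 : D ≤ 1 / 100)
    (hQ : ∀ f, |Q' f - Q f| ≤ 20 * D * Q f)
    (hw : ∀ x ∈ A, 0 < w x) (hw' : ∀ x ∈ A, (1 - D) ^ 2 * w x ≤ w' x ∧ w' x ≤ (1 + D) ^ 2 * w x)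
    (hl : ∀ x ∈ A, 0 ≤ εl x ∧ εl x ≤ 1) (hu : ∀ x ∈ A, 0 ≤ εu x ∧ εu x + 22 * D < 1) :
    Fm s t A w' (fun x => εl x + 56 * D) (fun x => εu x + 22 * D)
      (fun e => (1 - 20 * D) * bl e) (fun e => (1 + 20 * D) * bu e) Q' := by
  have h20 : 0 < 1 - 20 * D := by linarith
  constructor
  · intro f
    obtain ⟨g, hg⟩ := h.lb f
    refine ⟨g, ?_⟩
    have h1 := (abs_le.1 (hQ f)).1
    have h2 : (1 - 20 * D) * mor s t (wl A w εl) bl f g ≤ Q' f := by
      have := mul_le_mul_of_nonneg_left hg h20.le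
      linarith
    refine le_trans ?_ h2
    rw [← mor_smul]
    unfold mor
    refine add_le_add (Finset.sum_le_sum fun x _ => mul_le_mul_of_nonneg_right ?_ (sq_nonneg _))
      le_rfl
    unfold wl
    beta_reduce
    by_cases hx : x ∈ A
    · rw [if_pos hx, if_pos hx]
      obtain ⟨l1, l2⟩ := hl x hx
      have a1 := hw x hx
      have a2 := (hw' x hx).2
      rw [div_le_iff₀ (by linarith)]
      refine a2.trans ?_
      have e1 : (1 - 20 * D) * (w x / (1 + εl x)) * (1 + (εl x + 56 * D)) =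
          w x * ((1 - 20 * D) * (1 + (εl x + 56 * D)) / (1 + εl x)) := by
        field_simp
      rw [e1, mul_comm]
      refine mul_le_mul_of_nonneg_left ?_ a1.le
      rw [le_div_iff₀ (by linarith)]
      nlinarith [mul_nonneg hD l1, mul_nonneg hD hD, mul_nonneg (mul_nonneg hD hD) l1,
        mul_le_mul_of_nonneg_left l2 hD, mul_le_mul_of_nonneg_left hD1 hD,
        mul_le_mul_of_nonneg_left l2 (mul_nonneg hD hD)]
    · rw [if_neg hx, if_neg hx]
      simp
  · intro f g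
    have h1 := (abs_le.1 (hQ f)).2
    have h2 : Q' f ≤ (1 + 20 * D) * mor s t (wu A w εu) bu f g := by
      have := mul_le_mul_of_nonneg_left (h.ub f g) (by linarith : 0 ≤ 1 + 20 * D)
      linarith
    refine h2.trans ?_
    rw [← mor_smul]
    unfold mor
    refine add_le_add (Finset.sum_le_sum fun x _ => mul_le_mul_of_nonneg_right ?_ (sq_nonneg _))
      le_rfl
    unfold wu
    beta_reduce
    by_cases hx : x ∈ A
    · rw [if_pos hx, if_pos hx]
      obtain ⟨l1, l2⟩ := hu x hx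
      have a1 := hw x hx
      have a2 := (hw' x hx).1
      rw [le_div_iff₀ (by linarith)]
      refine le_trans ?_ a2
      have p1 : 0 < 1 - εu x := by linarith
      have e1 : (1 + 20 * D) * (w x / (1 - εu x)) * (1 - (εu x + 22 * D)) =
          w x * ((1 + 20 * D) * (1 - (εu x + 22 * D)) / (1 - εu x)) := by
        field_simp
      rw [e1, mul_comm ((1 - D) ^ 2)]
      refine mul_le_mul_of_nonneg_left ?_ a1.le
      rw [div_le_iff₀ p1]
      nlinarith [mul_nonneg hD l1, mul_nonneg hD hD, mul_nonneg (mul_nonneg hD hD) l1,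
        mul_nonneg (mul_nonneg hD hD) p1.le]
    · rw [if_neg hx, if_neg hx]
      simp

end scale

/-! ### REG -/

section reg

variable {d M : ℕ} [NeZero M]

theorem al_rg (T : Cfg (Tor d M)) (m : Tor d M → ℂ) : Al (T.rg m) = Al T := rfl

/-- the numbers of REG: `D = L mis / c₀`, `g₀` bounds `im G_aa` at the nodes, `K` the constant of block
Y, `L₄, Q₄` the bounds in `ℓ⁴` -/
structure RegN (V : Env d M) (q q' : AHH.Num) (s g₀ K L D L₄ Q₄ : ℝ) : Prop where
  s0 : 0 < s
  e0 : 0 < V.e₀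
  c0 : 0 < V.c₀ ∧ V.c₀ ≤ 1
  C0 : 1 ≤ V.C₀
  D0 : 0 < V.D₀ ∧ V.D₀ ≤ V.D₁
  u0 : 0 ≤ V.u₀
  g0 : 1 ≤ g₀
  L1 : 1 ≤ L
  mis0 : 0 ≤ q.mis
  Dd : D = L * q.mis / V.c₀
  D1 : D ≤ 1 / 100
  th0 : 0 ≤ q.tht ∧ q.tht ≤ 1
  ep0 : 0 ≤ q.eps ∧ q.eps ≤ 1
  rh0 : 0 ≤ q.rho ∧ q.rho ≤ 1
  gc : V.c₀ + q'.del ≤ V.m₀.im
  gC : ‖V.m₀‖ + q'.del ≤ V.C₀
  del : q.del + 2 * D * g₀ ≤ q'.del
  mis : (L * q.mis) ^ 2 ≤ q'.mis
  l4 : 0 ≤ L₄ ∧ 0 ≤ Q₄
  lam : q.lam ≤ L₄ ^ 4 ∧ 4 * D ^ 4 * g₀ ^ 2 * g₀ / (s * V.c₀) ≤ Q₄ ^ 4 ∧ (L₄ + Q₄) ^ 4 ≤ q'.lam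
  tht : q.tht + K * (2 * D) ≤ q'.tht
  K0 : 0 ≤ K
  eps : q.eps + 56 * D ≤ q'.eps
  rho : q.rho + 56 * D ≤ q'.rho
  u1 : V.u₀ + q'.rho < 1

/-- REG, the transfer -/
theorem reg_of_del (hGPB : GpbStmt) (hGHO : GhoStmt) (hGPA : GpaStmt)
    {K : ℝ → ℝ → ℝ → ℝ} (hY : YregStmt K) {V : Env d M} {q q' : AHH.Num}
    {s g₀ L D L₄ Q₄ : ℝ} {T : Cfg (Tor d M)} {run : Finset (Tor d M)} {δ : Tor d M → ℂ}
    (hN : RegN V q q' s g₀ (K V.c₀ V.C₀ g₀) L D L₄ Q₄) (h : StN V q s T run)
    (hs : ∀ x ∈ run, (T.s x : ℝ) = s)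
    (hg : ∀ x ∈ Al T, (net V.E V.e₀ T x x).im ≤ g₀)
    (hR : Rgd (net V.E V.e₀ T) (kap V.e₀ T) run T.mb s q.mis V.c₀ L δ) :
    StN V q' s (T.rg fun x => T.mb x + δ x) run := by
  obtain ⟨r1, r2, r3, r4⟩ := hR
  have hc0 := hN.c0.1
  have hL0 : 0 < L := by linarith [hN.L1]
  have hLm : 0 ≤ L * q.mis := mul_nonneg hL0.le hN.mis0
  have hD0 : 0 ≤ D := by
    rw [hN.Dd]
    positivity
  have hLD : L * q.mis = D * V.c₀ := by
    rw [hN.Dd]
    field_simp
  have hLD' : L * q.mis ≤ D := by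
    rw [hLD]
    have := mul_le_mul_of_nonneg_left hN.c0.2 hD0
    linarith
  have halive : ∀ x, x ∉ Al T → (T.s x : ℝ) = 0 := by
    intro x hx
    by_contra h0
    apply hx
    rw [Al, Finset.mem_filter]
    refine ⟨Finset.mem_univ _, ?_⟩
    rw [pos_iff_ne_zero]
    intro h1
    apply h0
    rw [h1]
    simp
  have hgg : ∀ x ∈ Al T, V.c₀ ≤ gg T x := fun x hx => (h.gau x hx).1
  have hkal : ∀ x ∈ Al T, (T.s x : ℝ) * gg T x ≤ kap V.e₀ T x := by
    intro x _
    unfold kap gg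
    linarith [hN.e0]
  have hkpos : ∀ x, 0 < kap V.e₀ T x := by
    intro x
    by_cases hx : x ∈ Al T
    · have h1 := hgg x hx
      have h2 : 0 ≤ (T.s x : ℝ) * gg T x := mul_nonneg (NNReal.coe_nonneg _) (by linarith)
      unfold kap
      unfold gg at h2
      linarith [hN.e0]
    · unfold kap
      rw [halive x hx]
      linarith [hN.e0]
  -- the new resolvent
  obtain ⟨T', hT'⟩ : ∃ T', T' = T.rg fun x => T.mb x + δ x := ⟨_, rfl⟩
  rw [← hT']
  have hzz : ∀ x, (s : ℂ) * δ x = (T.s x : ℝ) * δ x := by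
    intro x
    by_cases hx : x ∈ run
    · rw [hs x hx]
    · rw [r1 x hx]
      simp
  have hchg : Chg (net V.E V.e₀ T) (net V.E V.e₀ T') (kap V.e₀ T) (kap V.e₀ T')
      (fun a => (s : ℂ) * δ a) D := by
    rw [hT']
    refine chg_net hkpos ⟨hD0, by linarith [hN.D1]⟩ hzz fun x => ?_
    have := r3 x
    rwa [← hN.Dd] at this
  have hAl : Al T' = Al T := by
    rw [hT']
    rfl
  have hggx : ∀ x, gg T' x = gg T x + (δ x).im := by
    intro x
    rw [hT']
    rfl
  have hmb : ∀ x, T'.mb x = T.mb x + δ x := fun x => by rw [hT']; rfl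
  have hsx : ∀ x, T'.s x = T.s x := fun x => by rw [hT']; rfl
  have hδ : ∀ x, ‖δ x‖ ≤ D * V.c₀ := fun x => by rw [← hLD]; exact r2 x
  obtain ⟨b1, b2, b3, b4, b5, b6⟩ := hGPB (Tor d M) _ _ _ _ _ D hchg
  have him : ∀ x, 0 ≤ (net V.E V.e₀ T x x).im := by
    intro x
    rw [← ward hchg.h0 x]
    exact Finset.sum_nonneg fun y _ => mul_nonneg (hkpos y).le (sq_nonneg _)
  have hkrun : ∀ x ∈ run, s * V.c₀ ≤ kap V.e₀ T x := by
    intro x hx
    have e1 := hkal x (h.alv hx)
    rw [hs x hx] at e1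
    have e2 := mul_le_mul_of_nonneg_left (hgg x (h.alv hx)) hN.s0.le
    linarith
  have hgau : Gb V T' q'.del := by
    intro x hx
    rw [hAl] at hx
    obtain ⟨a1, a2, a3⟩ := h.gau x hx
    have a4 : ‖T'.mb x - V.m₀‖ ≤ q'.del := by
      rw [hmb, show T.mb x + δ x - V.m₀ = (T.mb x - V.m₀) + δ x by ring]
      refine (norm_add_le _ _).trans ?_
      have e1 := hδ x
      have e2 := hN.del
      have e3 : D * V.c₀ ≤ 2 * D * g₀ := by
        have := mul_le_mul_of_nonneg_left hN.c0.2 hD0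
        have := mul_le_mul_of_nonneg_left hN.g0 hD0
        nlinarith
      linarith
    refine ⟨?_, ?_, a4⟩
    · have e1 := (Complex.abs_im_le_norm (T'.mb x - V.m₀)).trans a4
      rw [Complex.sub_im] at e1
      have e2 := (abs_le.1 e1).1
      have e3 := hN.gc
      unfold gg
      linarith
    · have e1 := norm_add_le (T'.mb x - V.m₀) V.m₀
      rw [sub_add_cancel] at e1
      have e2 := hN.gC
      linarith
  refine ⟨hgau, ?_, ?_, ?_, ?_, ?_, ?_⟩
  · rw [hAl]
    exact h.alv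
  · intro x hx
    have := r4 _ _ (by rw [← hN.Dd]; exact hchg) x hx
    rw [hmb]
    refine this.trans ?_
    rw [← mul_pow]
    exact hN.mis
  · intro x hx y hy
    rw [hAl] at hx hy
    have e1 := b2 x y
    have e2 : (net V.E V.e₀ T x x).im * (net V.E V.e₀ T y y).im ≤ g₀ * g₀ := by
      exact mul_le_mul (hg x hx) (hg y hy) (him y) (by linarith [hN.g0])
    have e3 : ‖net V.E V.e₀ T' x y - net V.E V.e₀ T x y‖ ≤ 2 * D * g₀ := by
      refine abs_le_of_sq_le_sq' ?_ (by nlinarith [hN.g0]) |>.2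
      nlinarith [sq_nonneg D]
    have e4 := norm_add_le (net V.E V.e₀ T' x y - net V.E V.e₀ T x y)
      (net V.E V.e₀ T x y - V.G₀ x y)
    rw [sub_add_sub_cancel] at e4
    have e5 := h.ent x hx y hy
    linarith [hN.del]
  · intro x hx
    rw [hAl] at hx
    obtain ⟨e1, e2, e3⟩ := hN.lam
    have k4 : ∀ G : Matrix (Tor d M) (Tor d M) ℂ, LaR G run x = ∑ y ∈ run, ‖G x y‖ ^ 4 := by
      intro G
      unfold LaR KK
      exact Finset.sum_congr rfl fun y _ => by ring
    rw [k4]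
    refine le_trans ?_ e3
    refine hGHO (Tor d M) run (fun y => net V.E V.e₀ T x y) (fun y => net V.E V.e₀ T' x y) L₄ Q₄
      hN.l4.1 hN.l4.2 ?_ ?_
    · rw [← k4]
      exact (h.lar x hx).trans e1
    · refine (b6 x run (s * V.c₀) g₀ (mul_pos hN.s0 hc0) (by linarith [hN.g0])
        fun b hb => ⟨hkrun b hb, hg b (h.alv hb)⟩).trans (le_trans ?_ e2)
      have e4 : (net V.E V.e₀ T x x).im ^ 2 ≤ g₀ ^ 2 := pow_le_pow_left₀ (him x) (hg x hx) 2
      have e5 : 0 < s * V.c₀ := mul_pos hN.s0 hc0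
      have e6 : 0 ≤ g₀ := by linarith [hN.g0]
      gcongr
  · intro a ha
    have hpv : ∀ U : Cfg (Tor d M), (∀ x, U.s x = T.s x) → pv U run s = 0 := by
      intro U hU
      funext x
      unfold pv ind
      by_cases hx : x ∈ run
      · rw [if_pos hx, hU x, hs x hx]
        simp
      · rw [if_neg hx]
        simp
    have hy1 : Yin (net V.E V.e₀ T) 0 (fun x => ind run x * (s * gg T x)) (gg T) run q.tht := by
      intro b hb
      have := h.yin b hb
      unfold yy at this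
      rw [hpv T fun _ => rfl] at this
      exact this
    have hy2 := hY (Tor d M) _ _ _ _ _ δ D s V.c₀ V.C₀ g₀ q.tht (D * V.c₀) (gg T) run hchg hN.s0
      hc0 hN.C0 (fun a => rfl) hδ (by nlinarith [hN.D1]) (fun b hb => by
        have hb' := h.alv hb
        refine ⟨hgg b hb', ?_, ?_, hg b hb'⟩
        · exact (Complex.im_le_norm _).trans (h.gau b hb').2.1
        · have := hkal b hb'
          rwa [hs b hb] at this) hy1 hN.th0.1 hN.th0.2 a ha
    unfold yy
    rw [hpv T' hsx]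
    have hpw : pw T' run s = fun x => ind run x * (s * (gg T x + (δ x).im)) := by
      funext x
      unfold pw
      rw [hggx]
    rw [hpw, hggx a]
    refine hy2.trans ?_
    have e1 : 0 ≤ gg T a + (δ a).im := by
      have e2 := neg_abs_le (δ a).im
      have e3 := Complex.abs_im_le_norm (δ a)
      have e4 := hδ a
      have e5 := hgg a (h.alv ha)
      nlinarith [hN.D1]
    refine mul_le_mul_of_nonneg_right ?_ e1
    have e2 : K V.c₀ V.C₀ g₀ * (D + D * V.c₀) ≤ K V.c₀ V.C₀ g₀ * (2 * D) := by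
      refine mul_le_mul_of_nonneg_left ?_ hN.K0
      have := mul_le_mul_of_nonneg_left hN.c0.2 hD0
      linarith
    linarith [hN.tht]
  · obtain ⟨εl, εu, bl, bu, f1, f2, f3⟩ := h.frm
    have hz0 : ∀ x, x ∉ Al T → (s : ℂ) * δ x = 0 := by
      intro x hx
      rw [r1 x (fun hr => hx (h.alv hr))]
      simp
    have g1 := hGPA (Tor d M) _ _ _ _ _ D (Al T) hchg hz0
    have hww : ∀ x ∈ Al T, 0 < ww V.e₀ T x := fun x hx =>
      mul_pos (hkpos x) (by linarith [hgg x hx])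
    have hww' : ∀ x ∈ Al T, (1 - D) ^ 2 * ww V.e₀ T x ≤ ww V.e₀ T' x ∧
        ww V.e₀ T' x ≤ (1 + D) ^ 2 * ww V.e₀ T x := by
      intro x hx
      have p1 := hkpos x
      have p2 := hgg x hx
      have p3 : |((s : ℂ) * δ x).im| ≤ D * kap V.e₀ T x :=
        (Complex.abs_im_le_norm _).trans (hchg.hz x)
      have p4 : |(δ x).im| ≤ D * gg T x := by
        refine (Complex.abs_im_le_norm _).trans ((hδ x).trans ?_)
        exact mul_le_mul_of_nonneg_left p2 hD0
      have p5 := hchg.hk x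
      have p6 : ww V.e₀ T' x = (kap V.e₀ T x + ((s : ℂ) * δ x).im) * (gg T x + (δ x).im) := by
        unfold ww
        rw [p5, hggx]
      obtain ⟨u1, u2⟩ := abs_le.1 p3
      obtain ⟨v1, v2⟩ := abs_le.1 p4
      have p7 : 0 < gg T x := by linarith
      have hD1 := hN.D1
      rw [p6]
      unfold ww
      constructor
      · calc (1 - D) ^ 2 * (kap V.e₀ T x * gg T x)
            = ((1 - D) * kap V.e₀ T x) * ((1 - D) * gg T x) := by ring
          _ ≤ _ := by
            refine mul_le_mul (by linarith) (by linarith) ?_ ?_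
            · exact mul_nonneg (by linarith) p7.le
            · have : 0 ≤ (1 - D) * kap V.e₀ T x := mul_nonneg (by linarith) p1.le
              linarith
      · calc _ ≤ ((1 + D) * kap V.e₀ T x) * ((1 + D) * gg T x) := by
              refine mul_le_mul (by linarith) (by linarith) ?_ ?_
              · have : 0 ≤ (1 - D) * gg T x := mul_nonneg (by linarith) p7.le
                linarith
              · exact mul_nonneg (by linarith) p1.le
          _ = _ := by ring
    have hrho := hN.rho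
    have heps := hN.eps
    have hu1 := hN.u1
    have hfm := fm_change (w' := ww V.e₀ T') (Q' := qd (Ef V.E V.e₀ T')) f1 hD0 hN.D1
      (fun f => by
        have := g1 f
        unfold Ef
        rw [hAl]
        exact this) hww hww' (fun x hx => ⟨(f2 x hx).1, (f2 x hx).2.1.trans (by
          show (if x ∈ run then q.eps else q.rho) ≤ 1
          split_ifs
          · exact hN.ep0.2
          · exact hN.rh0.2)⟩) (fun x hx => ⟨(f2 x hx).2.2.1, by
          have := (f2 x hx).2.2.2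
          linarith⟩)
    refine ⟨_, _, _, _, by rw [hAl]; exact hfm, ?_, ?_⟩
    · intro x hx
      rw [hAl] at hx
      obtain ⟨a1, a2, a3, a4⟩ := f2 x hx
      refine ⟨by positivity, ?_, by positivity, by linarith⟩
      have a2' : εl x ≤ if x ∈ run then q.eps else q.rho := a2
      show εl x + 56 * D ≤ if x ∈ run then q'.eps else q'.rho
      split_ifs at a2' ⊢ <;> linarith
    · intro e
      obtain ⟨a1, a2, a3⟩ := f3 e
      obtain ⟨d1, d2⟩ := hN.D0
      have hD1 := hN.D1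
      have hr := hN.rh0
      have d3 : 0 < V.D₁ := by linarith
      refine ⟨?_, ?_, ?_⟩
      · calc V.D₀ * (1 - q'.rho) ≤ V.D₀ * (1 - q.rho - 20 * D) :=
              mul_le_mul_of_nonneg_left (by linarith) d1.le
          _ ≤ (1 - 20 * D) * (V.D₀ * (1 - q.rho)) := by
              nlinarith [mul_nonneg (mul_nonneg d1.le hD0) hr.1]
          _ ≤ (1 - 20 * D) * bl e := mul_le_mul_of_nonneg_left a1 (by linarith)
      · nlinarith [mul_nonneg hD0 (d3.le.trans a2)]
      · calc (1 + 20 * D) * bu e ≤ (1 + 20 * D) * (V.D₁ * (1 + q.rho)) :=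
              mul_le_mul_of_nonneg_left a3 (by linarith)
          _ ≤ V.D₁ * (1 + (q.rho + 56 * D)) := by
              nlinarith [mul_nonneg (mul_nonneg d3.le hD0) hr.1,
                mul_le_mul_of_nonneg_left hr.2 (mul_nonneg d3.le hD0)]
          _ ≤ V.D₁ * (1 + q'.rho) := mul_le_mul_of_nonneg_left (by linarith) d3.le

end reg

end Pool.Agent.AHH.H72
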