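import Pool.Agent.Helper72_AHH.Reg
import Pool.Agent.Helper72_AHH.RegDefs
import Pool.Agent.Helper49_AGU.FormY
import Pool.Agent.Helper90_AHH.YReg
import Pool.Agent.Helper49_AGU.GHO
import Pool.Agent.Helper10_AGU.GPB
import Pool.Agent.Helper99_AGU.GWB
import Pool.Agent.Helper19_AGU.GNW

/-!
# AHH, row REG: proof
-/

set_option autoImplicit false

open scoped BigOperators NNReal Matrix ComplexConjugate

noncomputable section

namespace Pool.Agent.AHH.H72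

open Pool.Agent.ANR (Gr Net)
open Pool.Agent.AGU (WK Chg GpbStmt GhoStmt Run)
open Pool.Agent.BED (Tor)
open Pool.Agent.LE.QF (BB KK)
open Pool.Agent.AND2B (net kap Vef Hr res)
open Pool.Agent.ANP (Cfg)
open Pool.Agent.AFJ (ind LaR EE)
open Pool.Agent.ABY (vir Yin)

/-- the constant of block Y -/
def KY (c₀ _C₀ Cg : ℝ) : ℝ := 14 * Cg / c₀ + 6 * Cg / c₀ ^ 2 + 3 / c₀

theorem yregStmt : YregStmt KY := by
  intro X _ _ G G' k k' z dl d s c₀ C₀ Cg th e g R hC hs hc₀ hC₀ hz he hde hg hY hth hth1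
  have h := Pool.Agent.AHH.H90.yreg hC hs ⟨hc₀, hC₀⟩ hz he hde hg hY ⟨hth, hth1⟩
  exact h

/-- the numbers -/
theorem regN {d M : ℕ} [NeZero M] {V : Env d M} {q q' : AHH.Num} {s C₁ ℓ Cr : ℝ}
    (hc : 0 < V.c₀) (hc1 : V.c₀ ≤ 1) (hC : 1 ≤ V.C₀) (hC₁ : 1 ≤ C₁) (hℓ : 1 ≤ ℓ)
    (hCr : Cr = C₁ / V.c₀ * (100 + 2 * (V.C₀ + 1) + 2 * KY V.c₀ V.C₀ (V.C₀ + 1) +
      4 * (V.C₀ + 1) ^ 3 / V.c₀))
    (h : RegH V q q' s (Cr * ℓ * q.mis)) :
    RegN V q q' s (V.C₀ + 1) (KY V.c₀ V.C₀ (V.C₀ + 1)) (C₁ * ℓ) (C₁ * ℓ * q.mis / V.c₀)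
      (q.lam ^ (1 / 4 : ℝ)) (Cr * ℓ * q.mis * s ^ (-(1 / 4) : ℝ)) := by
  have hK : 0 ≤ KY V.c₀ V.C₀ (V.C₀ + 1) := by
    unfold KY
    positivity
  obtain ⟨D, hD⟩ : ∃ D, D = C₁ * ℓ * q.mis / V.c₀ := ⟨_, rfl⟩
  have hm := h.mis0.1
  have hD0 : 0 ≤ D := by rw [hD]; positivity
  have hx : Cr * ℓ * q.mis = D * (100 + 2 * (V.C₀ + 1) + 2 * KY V.c₀ V.C₀ (V.C₀ + 1) +
      4 * (V.C₀ + 1) ^ 3 / V.c₀) := by
    rw [hCr, hD]
    ring
  have hq : 0 ≤ 4 * (V.C₀ + 1) ^ 3 / V.c₀ := by positivity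
  have e1 : 100 * D ≤ Cr * ℓ * q.mis := by rw [hx]; nlinarith [mul_nonneg hD0 hK, mul_nonneg hD0 hq]
  have e2 : 2 * D * (V.C₀ + 1) ≤ Cr * ℓ * q.mis := by
    rw [hx]; nlinarith [mul_nonneg hD0 hK, mul_nonneg hD0 hq]
  have e3 : KY V.c₀ V.C₀ (V.C₀ + 1) * (2 * D) ≤ Cr * ℓ * q.mis := by
    rw [hx]
    have : 0 ≤ D * (100 + 2 * (V.C₀ + 1)) := by positivity
    nlinarith [mul_nonneg hD0 hK, mul_nonneg hD0 hq]
  have e4 : C₁ * ℓ * q.mis ≤ Cr * ℓ * q.mis := by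
    have : C₁ * ℓ * q.mis = D * V.c₀ := by rw [hD]; field_simp
    rw [this]
    have := mul_le_mul_of_nonneg_left hc1 hD0
    linarith
  rw [← hD]
  refine ⟨h.s0, h.e0, ⟨hc, hc1⟩, hC, h.D0, h.u0, by linarith, by nlinarith, hm, hD,
    by linarith [h.x1], ⟨h.th0.1, by linarith [h.th0.2]⟩, h.ep0, h.rh0, h.gc, h.gC,
    by linarith [h.del], ?_, ⟨Real.rpow_nonneg h.lam0 _, ?_⟩, ⟨?_, ?_, h.lam⟩,
    by linarith [h.tht], hK, by linarith [h.eps], by linarith [h.rho], h.u1⟩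
  · refine (pow_le_pow_left₀ (by positivity) e4 2).trans h.mis
  · have := Real.rpow_nonneg h.s0.le (-(1 / 4) : ℝ)
    have : 0 ≤ Cr * ℓ * q.mis := by linarith
    positivity
  · rw [← Real.rpow_natCast, ← Real.rpow_mul h.lam0]
    norm_num
  · have e5 : (s ^ (-(1 / 4) : ℝ)) ^ 4 = 1 / s := by
      rw [← Real.rpow_natCast, ← Real.rpow_mul h.s0.le]
      norm_num
      rw [Real.rpow_neg_one]
    rw [mul_pow, e5, mul_one_div]
    have hs0 := h.s0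
    have e6 : 4 * D ^ 4 * (V.C₀ + 1) ^ 2 * (V.C₀ + 1) / (s * V.c₀) =
        (4 * (V.C₀ + 1) ^ 3 / V.c₀) * D ^ 4 / s := by
      field_simp
    rw [e6]
    refine div_le_div_of_nonneg_right ?_ hs0.le
    obtain ⟨y, hy⟩ : ∃ y, y = 4 * (V.C₀ + 1) ^ 3 / V.c₀ := ⟨_, rfl⟩
    rw [← hy] at hq hx ⊢
    have e7 : D * (1 + y) ≤ Cr * ℓ * q.mis := by
      rw [hx]
      refine mul_le_mul_of_nonneg_left ?_ hD0
      linarith
    have e8 : y ≤ (1 + y) ^ 4 := by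
      have := one_add_mul_le_pow (show (-2 : ℝ) ≤ y by linarith) 4
      push_cast at this
      linarith
    calc y * D ^ 4 ≤ (1 + y) ^ 4 * D ^ 4 := mul_le_mul_of_nonneg_right e8 (by positivity)
      _ = (D * (1 + y)) ^ 4 := by ring
      _ ≤ _ := pow_le_pow_left₀ (by positivity) e7 4

/-- REG -/
theorem reg (hGPA : GpaStmt) : RegStmt := by
  intro c₀ C₀ hc hc1 hC
  obtain ⟨C₁, hC₁, hG⟩ := gfi' Pool.Agent.AGU.H19.gnw
    (Pool.Agent.AGU.H10.gpb Pool.Agent.AGU.H99.gwb) (1 / 4) c₀ C₀ (by norm_num) hc hC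
  have hK : 0 ≤ KY c₀ C₀ (C₀ + 1) := by
    unfold KY
    positivity
  refine ⟨C₁ / c₀ * (100 + 2 * (C₀ + 1) + 2 * KY c₀ C₀ (C₀ + 1) + 4 * (C₀ + 1) ^ 3 / c₀), ?_, ?_⟩
  · have h1 : 1 ≤ C₁ / c₀ := by
      rw [le_div_iff₀ hc]
      linarith
    have h2 : 0 ≤ 4 * (C₀ + 1) ^ 3 / c₀ := by positivity
    nlinarith
  intro d M _ V q q' s N T run hVc hVC hN1 hR hSt hs hG₀ hW
  subst hVc hVC
  obtain ⟨e, B, w1, w2, w3, w4, w5⟩ := hW
  have hlog : 0 ≤ Real.log N := Real.log_nonneg hN1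
  have hgg : ∀ x ∈ Al T, V.c₀ ≤ gg T x := fun x hx => (hSt.gau x hx).1
  have hkpos : ∀ x, 0 < kap V.e₀ T x := by
    intro x
    unfold kap
    by_cases hx : x ∈ Al T
    · have h1 := hgg x hx
      unfold gg at h1
      have h2 : 0 ≤ (T.s x : ℝ) * (T.mb x).im := mul_nonneg (NNReal.coe_nonneg _) (by linarith)
      linarith [hR.e0]
    · have h3 : T.s x = 0 := by
        by_contra h0
        apply hx
        rw [Al, Finset.mem_filter]
        exact ⟨Finset.mem_univ _, pos_iff_ne_zero.2 h0⟩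
      rw [h3]
      simpa using hR.e0
  have hkrun : ∀ x ∈ run, s * (T.mb x).im ≤ kap V.e₀ T x := by
    intro x hx
    unfold kap
    rw [hs x hx]
    linarith [hR.e0]
  have hWK := wk_net (E := V.E) hkpos
  have hrun : Run (net V.E V.e₀ T) (kap V.e₀ T) run T.mb s q.mis (1 / 4) V.c₀ V.C₀ := by
    refine ⟨hWK, hR.s0, ⟨by norm_num, by norm_num, hc, hc1, hC⟩, hR.mis0, fun a ha => ?_, hkrun,
      hSt.mis, fun u => ?_⟩
    · obtain ⟨a1, a2, -⟩ := hSt.gau a (hSt.alv ha)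
      exact ⟨a1, (Complex.im_le_norm _).trans a2⟩
    · have hpv : pv T run s = 0 := by
        funext x
        unfold pv ind
        by_cases hx : x ∈ run
        · rw [if_pos hx, hs x hx]
          simp
        · rw [if_neg hx]
          simp
      have hy1 : Yin (net V.E V.e₀ T) 0 (fun x => ind run x * (s * gg T x)) (gg T) run q.tht := by
        intro b hb
        have := hSt.yin b hb
        unfold yy at this
        rw [hpv] at this
        exact this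
      have h1 := Pool.Agent.AGU.H49.formY hWK hR.s0 (fun a ha => by
        linarith [hgg a (hSt.alv ha)]) hy1 u
      refine h1.trans ?_
      refine mul_le_mul_of_nonneg_right ?_ (Finset.sum_nonneg fun a _ => sq_nonneg _)
      linarith [hR.th0.2]
  obtain ⟨δ, hδ⟩ := hG (Tor d M) (net V.E V.e₀ T) (kap V.e₀ T) run T.mb s q.mis e B N hrun hN1 w1 w2
    (fun o ho a ha => by
      have := w3 o ho a ha
      norm_num at this ⊢
      exact this) w4 w5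
  refine ⟨fun x => T.mb x + δ x, ?_⟩
  refine reg_of_del (Pool.Agent.AGU.H10.gpb Pool.Agent.AGU.H99.gwb) Pool.Agent.AGU.H49.gho hGPA
    yregStmt (regN hc hc1 hC hC₁ (by linarith) rfl hR) hSt hs (fun x hx => ?_) hδ
  have h1 := hSt.ent x hx x hx
  have h2 := (Complex.abs_im_le_norm _).trans h1
  rw [Complex.sub_im] at h2
  have h3 := (abs_le.1 h2).2
  have h4 := hG₀ x hx
  linarith [hR.del0]

end Pool.Agent.AHH.H72
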